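import Mathlib

/-!
# Countable colourings of free actions

`X` carries an action of a group `Γ` and a measurable injection `ι : X → ℝ`.  For a finite set
`D` of group elements not containing `1` there is a measurable map `χ : X → ℕ` with
`χ (γ • x) ≠ χ x` for all `γ ∈ D`.
-/

namespace Pool.Agent.helper88.OW

open MeasureTheory

variable {Γ : Type*} [Group Γ] {X : Type*} [MeasurableSpace X] [MulAction Γ X]

/-- rational intervals, enumerated -/
noncomputable def qint (n : ℕ) : Set ℝ :=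
  match (Encodable.decode n : Option (ℚ × ℚ)) with
  | some (a, b) => Set.Ioo (a : ℝ) (b : ℝ)
  | none => ∅

lemma measurableSet_qint (n : ℕ) : MeasurableSet (qint n) := by
  unfold qint
  split
  · exact measurableSet_Ioo
  · exact MeasurableSet.empty

lemma exists_qint (a b : ℚ) : ∃ n, qint n = Set.Ioo (a : ℝ) (b : ℝ) := by
  refine ⟨Encodable.encode (a, b), ?_⟩
  unfold qint
  rw [Encodable.encodek]

lemma exists_qint_sep (t : ℝ) (F : Finset ℝ) (ht : t ∉ F) :
    ∃ n, t ∈ qint n ∧ ∀ s ∈ F, s ∉ qint n := by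
  classical
  have hopen : IsOpen ((F : Set ℝ)ᶜ) := (F.finite_toSet.isClosed).isOpen_compl
  obtain ⟨ε, hε, hb⟩ := Metric.isOpen_iff.1 hopen t (by simpa using ht)
  obtain ⟨a, ha1, ha2⟩ := exists_rat_btwn (show t - ε < t by linarith)
  obtain ⟨b, hb1, hb2⟩ := exists_rat_btwn (show t < t + ε by linarith)
  obtain ⟨n, hn⟩ := exists_qint a b
  refine ⟨n, ?_, ?_⟩
  · rw [hn]; exact ⟨ha2, hb1⟩
  · intro s hs hsn
    rw [hn] at hsn
    have : s ∈ Metric.ball t ε := by
      rw [Metric.mem_ball, Real.dist_eq, abs_lt]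
      constructor <;> linarith [hsn.1, hsn.2]
    exact hb this (by simpa using hs)

/-- Countable colouring. -/
theorem exists_coloring (hm : ∀ γ : Γ, Measurable fun x : X => γ • x) (ι : X → ℝ)
    (hι : Measurable ι) (hinj : Function.Injective ι)
    (hfree : ∀ (γ : Γ) (x : X), γ • x = x → γ = 1) (D : Finset Γ) (hD : (1 : Γ) ∉ D) :
    ∃ χ : X → ℕ, Measurable χ ∧ ∀ γ ∈ D, ∀ x, χ (γ • x) ≠ χ x := by
  classical
  have hex : ∀ x : X, ∃ n, ι x ∈ qint n ∧ ∀ γ ∈ D, ι (γ • x) ∉ qint n := by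
    intro x
    obtain ⟨n, h1, h2⟩ := exists_qint_sep (ι x) (D.image fun γ => ι (γ • x)) (by
      intro h
      obtain ⟨γ, hγ, he⟩ := Finset.mem_image.1 h
      have := hfree γ x (hinj he)
      rw [this] at hγ
      exact hD hγ)
    exact ⟨n, h1, fun γ hγ => h2 _ (Finset.mem_image_of_mem _ hγ)⟩
  have hmeas : ∀ n, MeasurableSet {x : X | ι x ∈ qint n ∧ ∀ γ ∈ D, ι (γ • x) ∉ qint n} := by
    intro n
    refine (hι (measurableSet_qint n)).inter ?_
    have : {x : X | ∀ γ ∈ D, ι (γ • x) ∉ qint n} =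
        ⋂ γ ∈ D, {x | ι (γ • x) ∉ qint n} := by
      ext x; simp
    change MeasurableSet {x : X | ∀ γ ∈ D, ι (γ • x) ∉ qint n}
    rw [this]
    exact Finset.measurableSet_biInter _ fun γ _ =>
      ((hι.comp (hm γ)) (measurableSet_qint n)).compl
  refine ⟨fun x => Nat.find (hex x), measurable_find _ hmeas, ?_⟩
  intro γ hγ x he
  have h1 := (Nat.find_spec (hex x)).2 γ hγ
  have h2 := (Nat.find_spec (hex (γ • x))).1
  simp only at he
  rw [he] at h2
  exact h1 h2

end Pool.Agent.helper88.OW
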