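import Mathlib
import Pool.Agent.helper88.OW.Color

/-!
# One level of the Ornstein-Weiss quasi-tiling

A partial tiling is a map `a : X → Option Γ`; `a x = some k` means that `x` lies in the tile with
centre `k⁻¹ • x`.  Given a partial tiling and a finite shape `K`, add a maximal family of tiles
`K • c` which are almost disjoint.
-/

namespace Pool.Agent.helper88.OW

open MeasureTheory

section count

variable {X : Type*} [MeasurableSpace X] {P : Measure X} [IsProbabilityMeasure P]

lemma sum_measureReal_inter {ι : Type*} (K : Finset ι) (S : ι → Set X)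
    (hS : ∀ k ∈ K, MeasurableSet (S k)) (C : Set X) (hC : MeasurableSet C) :
    ∑ k ∈ K, P.real (S k ∩ C) =
      ∫ x, C.indicator (fun x => ∑ k ∈ K, (S k).indicator (1 : X → ℝ) x) x ∂P := by
  classical
  have h1 : ∀ k ∈ K, P.real (S k ∩ C) = ∫ x, (S k ∩ C).indicator (1 : X → ℝ) x ∂P := by
    intro k hk
    rw [integral_indicator_one ((hS k hk).inter hC)]
  rw [Finset.sum_congr rfl h1, ← integral_finsetSum]
  · congr 1
    ext x
    by_cases hx : x ∈ C
    · rw [Set.indicator_of_mem hx]
      refine Finset.sum_congr rfl fun k _ => ?_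
      by_cases hk : x ∈ S k
      · rw [Set.indicator_of_mem (show x ∈ S k ∩ C from ⟨hk, hx⟩), Set.indicator_of_mem hk]
      · rw [Set.indicator_of_notMem (fun h => hk h.1), Set.indicator_of_notMem hk]
    · rw [Set.indicator_of_notMem hx]
      exact Finset.sum_eq_zero fun k _ => Set.indicator_of_notMem (fun h => hx h.2) _
  · intro k hk
    exact (integrable_const (1 : ℝ)).indicator ((hS k hk).inter hC)

omit [MeasurableSpace X] in
lemma sum_indicator_eq_card {ι : Type*} (K : Finset ι) (S : ι → Set X) (x : X)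
    [DecidablePred fun k => x ∈ S k] :
    ∑ k ∈ K, (S k).indicator (1 : X → ℝ) x = ((K.filter fun k => x ∈ S k).card : ℝ) := by
  classical
  rw [Finset.card_filter]
  push_cast
  refine Finset.sum_congr rfl fun k _ => ?_
  by_cases hk : x ∈ S k
  · rw [Set.indicator_of_mem hk]; simp [hk]
  · rw [Set.indicator_of_notMem hk]; simp [hk]

open Classical in
lemma count_ge {ι : Type*} (K : Finset ι) (S : ι → Set X)
    (hS : ∀ k ∈ K, MeasurableSet (S k)) (C : Set X) (hC : MeasurableSet C) (c : ℝ)
    (h : ∀ x ∈ C, c ≤ ((K.filter fun k => x ∈ S k).card : ℝ)) :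
    c * P.real C ≤ ∑ k ∈ K, P.real (S k ∩ C) := by
  rw [sum_measureReal_inter K S hS C hC]
  have : c * P.real C = ∫ x, C.indicator (fun _ => c) x ∂P := by
    rw [integral_indicator_const _ hC, smul_eq_mul, mul_comm]
  rw [this]
  refine integral_mono ((integrable_const c).indicator hC) ?_ ?_
  · refine Integrable.indicator ?_ hC
    exact integrable_finsetSum _ fun k hk => (integrable_const (1 : ℝ)).indicator (hS k hk)
  · intro x
    by_cases hx : x ∈ C
    · simp only [Set.indicator_of_mem hx]
      rw [sum_indicator_eq_card]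
      exact h x hx
    · simp only [Set.indicator_of_notMem hx]
      exact le_rfl

open Classical in
lemma count_le {ι : Type*} (K : Finset ι) (S : ι → Set X)
    (hS : ∀ k ∈ K, MeasurableSet (S k)) (C : Set X) (hC : MeasurableSet C) (c : ℝ)
    (h : ∀ x ∈ C, ((K.filter fun k => x ∈ S k).card : ℝ) ≤ c) :
    ∑ k ∈ K, P.real (S k ∩ C) ≤ c * P.real C := by
  rw [sum_measureReal_inter K S hS C hC]
  have : c * P.real C = ∫ x, C.indicator (fun _ => c) x ∂P := by
    rw [integral_indicator_const _ hC, smul_eq_mul, mul_comm]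
  rw [this]
  refine integral_mono ?_ ((integrable_const c).indicator hC) ?_
  · refine Integrable.indicator ?_ hC
    exact integrable_finsetSum _ fun k hk => (integrable_const (1 : ℝ)).indicator (hS k hk)
  · intro x
    by_cases hx : x ∈ C
    · simp only [Set.indicator_of_mem hx]
      rw [sum_indicator_eq_card]
      exact h x hx
    · simp only [Set.indicator_of_notMem hx]
      exact le_rfl

end count

section level

variable {Γ : Type*} [Group Γ] {X : Type*} [MulAction Γ X]

open Classical in
/-- centres of the tiles of colour `n` added to the partial tiling `a` -/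
def ctr (χ : X → ℕ) (K : Finset Γ) (ε : ℝ) (a : X → Option Γ) (n : ℕ) : Set X :=
  {x | χ x = n ∧ ((K.filter fun k => (a (k • x)).isSome).card : ℝ) ≤ ε * K.card}

open Classical in
/-- add the tiles with centres in `C` -/
noncomputable def stp (K : Finset Γ) (C : Set X) (a : X → Option Γ) : X → Option Γ := fun y =>
  if (a y).isSome then a y else
    if h : ∃ k ∈ K, k⁻¹ • y ∈ C then some h.choose else none

/-- the partial tilings after the colours `< n` have been treated -/
noncomputable def aseq (χ : X → ℕ) (K : Finset Γ) (ε : ℝ) (a : X → Option Γ) : ℕ → X → Option Γ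
  | 0 => a
  | n + 1 => stp K (ctr χ K ε (aseq χ K ε a n) n) (aseq χ K ε a n)

open Classical in
/-- the partial tiling after all colours -/
noncomputable def alim (χ : X → ℕ) (K : Finset Γ) (ε : ℝ) (a : X → Option Γ) : X → Option Γ :=
  fun y => if h : ∃ n, (aseq χ K ε a n y).isSome then aseq χ K ε a (Nat.find h) y else none

variable {χ : X → ℕ} {K : Finset Γ} {ε : ℝ} {a : X → Option Γ}

lemma stp_of_isSome {C : Set X} {y : X} (h : (a y).isSome) : stp K C a y = a y := by
  simp [stp, h]

lemma aseq_succ_of_isSome {n : ℕ} {y : X} (h : (aseq χ K ε a n y).isSome) :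
    aseq χ K ε a (n + 1) y = aseq χ K ε a n y := stp_of_isSome h

lemma aseq_of_le {n m : ℕ} (hnm : n ≤ m) {y : X} (h : (aseq χ K ε a n y).isSome) :
    aseq χ K ε a m y = aseq χ K ε a n y := by
  induction m, hnm using Nat.le_induction with
  | base => rfl
  | succ m _ ih =>
    rw [aseq_succ_of_isSome (by rw [ih]; exact h), ih]

lemma alim_of_isSome {n : ℕ} {y : X} (h : (aseq χ K ε a n y).isSome) :
    alim χ K ε a y = aseq χ K ε a n y := by
  classical
  have hex : ∃ n, (aseq χ K ε a n y).isSome := ⟨n, h⟩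
  unfold alim
  rw [dif_pos hex]
  exact (aseq_of_le (Nat.find_min' hex h) (Nat.find_spec hex)).symm

lemma alim_eq_some {y : X} {k : Γ} (h : alim χ K ε a y = some k) :
    ∃ n, aseq χ K ε a n y = some k := by
  classical
  unfold alim at h
  split_ifs at h with hex
  exact ⟨_, h⟩

lemma alim_isSome_iff {y : X} : (alim χ K ε a y).isSome ↔ ∃ n, (aseq χ K ε a n y).isSome := by
  constructor
  · intro h
    obtain ⟨k, hk⟩ := Option.isSome_iff_exists.1 h
    obtain ⟨n, hn⟩ := alim_eq_some hk
    exact ⟨n, by rw [hn]; rfl⟩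
  · rintro ⟨n, hn⟩
    rw [alim_of_isSome hn]; exact hn

variable (hfree : ∀ (γ : Γ) (x : X), γ • x = x → γ = 1)
  (hχ : ∀ k ∈ K, ∀ l ∈ K, k ≠ l → ∀ x, χ ((k⁻¹ * l) • x) ≠ χ x)

include hχ in
lemma ctr_unique {b : X → Option Γ} {n : ℕ} {y : X} {k l : Γ} (hk : k ∈ K) (hl : l ∈ K)
    (h1 : k⁻¹ • y ∈ ctr χ K ε b n) (h2 : l⁻¹ • y ∈ ctr χ K ε b n) : k = l := by
  by_contra hne
  refine hχ k hk l hl hne (l⁻¹ • y) ?_
  rw [smul_smul, mul_assoc, mul_inv_cancel, mul_one, h1.1, h2.1]

include hχ in
lemma stp_eq_some_iff {b : X → Option Γ} {n : ℕ} {y : X} {k : Γ} :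
    stp K (ctr χ K ε b n) b y = some k ↔
      b y = some k ∨ (b y = none ∧ k ∈ K ∧ k⁻¹ • y ∈ ctr χ K ε b n) := by
  classical
  unfold stp
  by_cases hb : (b y).isSome
  · rw [if_pos hb]
    constructor
    · exact fun h => Or.inl h
    · rintro (h | ⟨h, -⟩)
      · exact h
      · rw [h] at hb; simp at hb
  · rw [if_neg hb]
    have hb' : b y = none := by simpa using hb
    by_cases hex : ∃ k ∈ K, k⁻¹ • y ∈ ctr χ K ε b n
    · rw [dif_pos hex]
      have hc := hex.choose_spec
      constructor
      · intro h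
        rw [Option.some.injEq] at h
        rw [h] at hc
        exact Or.inr ⟨hb', hc.1, hc.2⟩
      · rintro (h | ⟨-, h1, h2⟩)
        · rw [hb'] at h; simp at h
        · rw [ctr_unique hχ hc.1 h1 hc.2 h2]
    · rw [dif_neg hex]
      constructor
      · intro h; simp at h
      · rintro (h | ⟨-, h1, h2⟩)
        · rw [hb'] at h; simp at h
        · exact absurd ⟨k, h1, h2⟩ hex

include hχ in
lemma aseq_succ_eq_some_iff {n : ℕ} {y : X} {k : Γ} :
    aseq χ K ε a (n + 1) y = some k ↔
      aseq χ K ε a n y = some k ∨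
        (aseq χ K ε a n y = none ∧ k ∈ K ∧ k⁻¹ • y ∈ ctr χ K ε (aseq χ K ε a n) n) :=
  stp_eq_some_iff hχ

/-- the newly covered points -/
def nw (χ : X → ℕ) (K : Finset Γ) (ε : ℝ) (a : X → Option Γ) : Set X :=
  {y | (alim χ K ε a y).isSome ∧ a y = none}

include hχ in
lemma exists_of_mem_nw {y : X} (hy : y ∈ nw χ K ε a) :
    ∃ n, ∃ k ∈ K, aseq χ K ε a n y = none ∧ k⁻¹ • y ∈ ctr χ K ε (aseq χ K ε a n) n ∧
      alim χ K ε a y = some k := by
  classical
  obtain ⟨hy1, hy2⟩ := hy
  have hex := alim_isSome_iff.1 hy1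
  set N := Nat.find hex with hN
  have hs := Nat.find_spec hex
  rw [← hN] at hs
  obtain ⟨n, hn⟩ : ∃ n, N = n + 1 := by
    refine Nat.exists_eq_succ_of_ne_zero fun h0 => ?_
    rw [h0] at hs
    change (a y).isSome at hs
    rw [hy2] at hs; simp at hs
  have hnone : aseq χ K ε a n y = none := by
    have := Nat.find_min hex (m := n) (by omega)
    simpa using this
  obtain ⟨k, hk⟩ := Option.isSome_iff_exists.1 hs
  rw [hn] at hk
  rcases (aseq_succ_eq_some_iff hχ).1 hk with h | ⟨-, h1, h2⟩
  · rw [hnone] at h; simp at h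
  · refine ⟨n, k, h1, hnone, h2, ?_⟩
    rw [alim_of_isSome (n := n + 1) (by rw [hk]; rfl), hk]

end level

section meas

variable {Γ : Type*} [Group Γ] [Countable Γ] {X : Type*} [MeasurableSpace X] [MulAction Γ X]

/-- measurability of a partial tiling -/
def Meas (a : X → Option Γ) : Prop := ∀ k, MeasurableSet {y | a y = some k}

omit [Group Γ] [MulAction Γ X] in
lemma Meas.isSome {a : X → Option Γ} (h : Meas a) : MeasurableSet {y | (a y).isSome = true} := by
  have : {y | (a y).isSome = true} = ⋃ k, {y | a y = some k} := by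
    ext y
    simp [Option.isSome_iff_exists]
  rw [this]
  exact MeasurableSet.iUnion h

omit [Group Γ] [MulAction Γ X] in
lemma Meas.eq_none {a : X → Option Γ} (h : Meas a) : MeasurableSet {y | a y = none} := by
  have : {y | a y = none} = {y | (a y).isSome = true}ᶜ := by
    ext y
    simp
  rw [this]
  exact h.isSome.compl

variable {χ : X → ℕ} {K : Finset Γ} {ε : ℝ} {a : X → Option Γ}
  (hm : ∀ γ : Γ, Measurable fun x : X => γ • x) (hχm : Measurable χ)
  (hχ : ∀ k ∈ K, ∀ l ∈ K, k ≠ l → ∀ x, χ ((k⁻¹ * l) • x) ≠ χ x)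

include hm hχm in
lemma measurableSet_ctr {b : X → Option Γ} (hb : Meas b) (n : ℕ) :
    MeasurableSet (ctr χ K ε b n) := by
  classical
  refine (hχm (measurableSet_singleton n)).inter ?_
  have : {x : X | ((K.filter fun k => (b (k • x)).isSome).card : ℝ) ≤ ε * K.card} =
      ⋃ s ∈ K.powerset.filter (fun s => (s.card : ℝ) ≤ ε * K.card),
        {x : X | ∀ k ∈ K, (k ∈ s ↔ (b (k • x)).isSome = true)} := by
    ext x
    simp only [Set.mem_ofPred_eq, Set.mem_iUnion, Finset.mem_filter, Finset.mem_powerset,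
      exists_prop]
    constructor
    · intro h
      refine ⟨K.filter fun k => (b (k • x)).isSome, ⟨Finset.filter_subset _ _, ?_⟩, ?_⟩
      · convert h
      · intro k hk
        simp [hk]
    · rintro ⟨s, ⟨hs, hc⟩, hx⟩
      have : (K.filter fun k => (b (k • x)).isSome) = s := by
        ext k
        simp only [Finset.mem_filter]
        constructor
        · rintro ⟨h1, h2⟩
          exact (hx k h1).2 h2
        · intro h
          exact ⟨hs h, (hx k (hs h)).1 h⟩
      rw [← this] at hc
      convert hc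
  change MeasurableSet {x : X | ((K.filter fun k => (b (k • x)).isSome).card : ℝ) ≤ ε * K.card}
  rw [this]
  refine Finset.measurableSet_biUnion _ fun s _ => ?_
  have h2 : {x : X | ∀ k ∈ K, (k ∈ s ↔ (b (k • x)).isSome = true)} =
      ⋂ k ∈ K, {x : X | (k ∈ s ↔ (b (k • x)).isSome = true)} := by
    ext x; simp
  rw [h2]
  refine Finset.measurableSet_biInter _ fun k _ => ?_
  by_cases hk : k ∈ s
  · have : {x : X | (k ∈ s ↔ (b (k • x)).isSome = true)} =
        (fun x : X => k • x) ⁻¹' {y | (b y).isSome = true} := by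
      ext x; simp [hk]
    rw [this]
    exact (hm k) hb.isSome
  · have : {x : X | (k ∈ s ↔ (b (k • x)).isSome = true)} =
        (fun x : X => k • x) ⁻¹' {y | b y = none} := by
      ext x; simp [hk]
    rw [this]
    exact (hm k) hb.eq_none

include hm hχm hχ in
lemma meas_aseq (ha : Meas a) (n : ℕ) : Meas (aseq χ K ε a n) := by
  induction n with
  | zero => exact ha
  | succ n ih =>
    intro k
    have : {y | aseq χ K ε a (n + 1) y = some k} = {y | aseq χ K ε a n y = some k} ∪
        ({y | aseq χ K ε a n y = none} ∩ {y | k ∈ K ∧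
          k⁻¹ • y ∈ ctr χ K ε (aseq χ K ε a n) n}) := by
      ext y
      exact aseq_succ_eq_some_iff hχ
    rw [this]
    refine (ih k).union (ih.eq_none.inter ?_)
    by_cases hk : k ∈ K
    · have : {y | k ∈ K ∧ k⁻¹ • y ∈ ctr χ K ε (aseq χ K ε a n) n} =
          (fun y : X => k⁻¹ • y) ⁻¹' ctr χ K ε (aseq χ K ε a n) n := by
        ext y; simp [hk]
      rw [this]
      exact (hm k⁻¹) (measurableSet_ctr hm hχm ih n)
    · have : {y | k ∈ K ∧ k⁻¹ • y ∈ ctr χ K ε (aseq χ K ε a n) n} = ∅ := by
        ext y; simp [hk]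
      rw [this]
      exact MeasurableSet.empty

include hm hχm hχ in
lemma meas_alim (ha : Meas a) : Meas (alim χ K ε a) := by
  intro k
  have : {y | alim χ K ε a y = some k} = ⋃ n, {y | aseq χ K ε a n y = some k} := by
    ext y
    simp only [Set.mem_ofPred_eq, Set.mem_iUnion]
    constructor
    · exact alim_eq_some
    · rintro ⟨n, hn⟩
      rw [alim_of_isSome (n := n) (by rw [hn]; rfl), hn]
  rw [this]
  exact MeasurableSet.iUnion fun n => meas_aseq hm hχm hχ ha n k

/-- all centres of new tiles -/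
def ctrs (χ : X → ℕ) (K : Finset Γ) (ε : ℝ) (a : X → Option Γ) : Set X :=
  ⋃ n, ctr χ K ε (aseq χ K ε a n) n

omit [Countable Γ] [MeasurableSpace X] in
lemma ctr_disjoint : Pairwise (Function.onFun Disjoint
    fun n => ctr χ K ε (aseq χ K ε a n) n) := by
  intro n m hnm
  rw [Function.onFun, Set.disjoint_left]
  intro x hx hx'
  exact hnm (hx.1.symm.trans hx'.1)

end meas

end Pool.Agent.helper88.OW
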