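import Mathlib
import Pool.Agent.helper88.OW.Level

/-!
# Quantitative properties of one level of the quasi-tiling
-/

namespace Pool.Agent.helper88.OW

open MeasureTheory
open scoped Pointwise

lemma hasSum_real_iUnion {X : Type*} [MeasurableSpace X] {P : Measure X} [IsFiniteMeasure P]
    {f : ℕ → Set X} (hd : Pairwise (Function.onFun Disjoint f)) (hf : ∀ n, MeasurableSet (f n)) :
    HasSum (fun n => P.real (f n)) (P.real (⋃ n, f n)) := by
  have h1 := measure_iUnion (μ := P) hd hf
  have h2 : ∑' n, P (f n) ≠ ⊤ := by rw [← h1]; exact measure_ne_top _ _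
  have h3 : HasSum (fun n => P (f n)) (P (⋃ n, f n)) := by
    rw [h1]; exact ENNReal.summable.hasSum
  unfold Measure.real
  rw [h1, ENNReal.tsum_toReal_eq (fun n => measure_ne_top _ _)]
  exact (ENNReal.summable_toReal h2).hasSum

variable {Γ : Type*} [Group Γ] [Countable Γ] {X : Type*} [MeasurableSpace X] [MulAction Γ X]
  {χ : X → ℕ} {K : Finset Γ} {ε : ℝ} {a : X → Option Γ}

omit [Countable Γ] [MeasurableSpace X] in
lemma isSome_succ_of_ctr {n : ℕ} {x : X}
    (hχ : ∀ k ∈ K, ∀ l ∈ K, k ≠ l → ∀ x, χ ((k⁻¹ * l) • x) ≠ χ x)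
    (hx : x ∈ ctr χ K ε (aseq χ K ε a n) n) {k : Γ} (hk : k ∈ K) :
    (aseq χ K ε a (n + 1) (k • x)).isSome := by
  by_cases h : (aseq χ K ε a n (k • x)).isSome
  · rw [aseq_succ_of_isSome h]; exact h
  · have h' : aseq χ K ε a n (k • x) = none := by simpa using h
    have : aseq χ K ε a (n + 1) (k • x) = some k := by
      rw [aseq_succ_eq_some_iff hχ]
      exact Or.inr ⟨h', hk, by rwa [inv_smul_smul]⟩
    rw [this]; rfl

open Classical in
omit [Countable Γ] [MeasurableSpace X] in
/-- maximality: every translate of `K` is covered at least up to proportion `ε` -/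
lemma maximality (hχ : ∀ k ∈ K, ∀ l ∈ K, k ≠ l → ∀ x, χ ((k⁻¹ * l) • x) ≠ χ x) (hε1 : ε ≤ 1)
    (x : X) : ε * K.card ≤ ((K.filter fun k => (alim χ K ε a (k • x)).isSome).card : ℝ) := by
  set n := χ x with hn
  by_cases hx : x ∈ ctr χ K ε (aseq χ K ε a n) n
  · have : K.filter (fun k => (alim χ K ε a (k • x)).isSome) = K := by
      rw [Finset.filter_eq_self]
      intro k hk
      exact alim_isSome_iff.2 ⟨n + 1, isSome_succ_of_ctr hχ hx hk⟩
    rw [this]
    have : (0 : ℝ) ≤ K.card := by positivity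
    nlinarith
  · have h2 : ε * K.card < ((K.filter fun k => (aseq χ K ε a n (k • x)).isSome).card : ℝ) := by
      by_contra hcon
      push Not at hcon
      exact hx ⟨hn.symm, hcon⟩
    refine h2.le.trans ?_
    exact_mod_cast Finset.card_le_card (by
      intro k hk
      rw [Finset.mem_filter] at hk ⊢
      exact ⟨hk.1, alim_isSome_iff.2 ⟨n, hk.2⟩⟩)

variable (hχm : Measurable χ) (hχ : ∀ k ∈ K, ∀ l ∈ K, k ≠ l → ∀ x, χ ((k⁻¹ * l) • x) ≠ χ x)
  {P : Measure X} [IsProbabilityMeasure P]
  (hP : ∀ γ : Γ, MeasurePreserving (fun x : X => γ • x) P P) (ha : Meas a)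

include hP in
omit [Countable Γ] [IsProbabilityMeasure P] in
lemma real_preimage {s : Set X} (hs : MeasurableSet s) (γ : Γ) :
    P.real {x | γ • x ∈ s} = P.real s := by
  have := (hP γ).measure_preimage hs.nullMeasurableSet
  unfold Measure.real
  rw [← this]
  rfl

include hχm hχ hP ha

omit [IsProbabilityMeasure P] in
lemma measurableSet_nw : MeasurableSet (nw χ K ε a) :=
  (meas_alim (fun γ => (hP γ).measurable) hχm hχ ha).isSome.inter ha.eq_none

omit [IsProbabilityMeasure P] in
lemma measurableSet_ctrs : MeasurableSet (ctrs χ K ε a) :=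
  MeasurableSet.iUnion fun n => measurableSet_ctr (fun γ => (hP γ).measurable) hχm
    (meas_aseq (fun γ => (hP γ).measurable) hχm hχ ha n) n

/-- new coverage -/
lemma cover_ge (hε1 : ε ≤ 1) (hK : K.Nonempty) :
    ε * P.real {x | ∀ k ∈ K, a (k • x) = none} ≤ P.real (nw χ K ε a) := by
  classical
  have hmn := measurableSet_nw (ε := ε) hχm hχ hP ha
  have hC : MeasurableSet {x | ∀ k ∈ K, a (k • x) = none} := by
    have : {x | ∀ k ∈ K, a (k • x) = none} = ⋂ k ∈ K, {x | a (k • x) = none} := by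
      ext x; simp
    rw [this]
    exact Finset.measurableSet_biInter _ fun k _ => (hP k).measurable ha.eq_none
  have h1 := count_ge (P := P) K (fun k => {x | k • x ∈ nw χ K ε a})
    (fun k _ => (hP k).measurable hmn) {x | ∀ k ∈ K, a (k • x) = none} hC (ε * K.card) (by
      intro x hx
      refine (maximality (a := a) hχ hε1 x).trans ?_
      exact_mod_cast Finset.card_le_card (by
        intro k hk
        rw [Finset.mem_filter] at hk ⊢
        exact ⟨hk.1, hk.2, hx k hk.1⟩))
  have h2 : ∑ k ∈ K, P.real ((fun k => {x | k • x ∈ nw χ K ε a}) k ∩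
      {x | ∀ k ∈ K, a (k • x) = none}) ≤ K.card * P.real (nw χ K ε a) := by
    calc _ ≤ ∑ k ∈ K, P.real (nw χ K ε a) := by
          refine Finset.sum_le_sum fun k _ => ?_
          rw [← real_preimage hP hmn k]
          exact measureReal_mono Set.inter_subset_left
      _ = _ := by simp
  have hKc : (0 : ℝ) < K.card := by exact_mod_cast hK.card_pos
  have h3 := h1.trans h2
  have h4 : (K.card : ℝ) * (ε * P.real {x | ∀ k ∈ K, a (k • x) = none}) ≤
      K.card * P.real (nw χ K ε a) := by
    calc _ = ε * K.card * P.real {x | ∀ k ∈ K, a (k • x) = none} := by ring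
      _ ≤ _ := h3
  exact le_of_mul_le_mul_left h4 hKc

/-- neighbourhoods of the newly covered set -/
lemma nbhd_le [DecidableEq Γ] (S : Finset Γ) :
    P.real {x | ∃ s ∈ S, s • x ∈ nw χ K ε a} ≤ (S⁻¹ * K).card * P.real (ctrs χ K ε a) := by
  have hsub : {x | ∃ s ∈ S, s • x ∈ nw χ K ε a} ⊆
      ⋃ g ∈ (S⁻¹ * K), {x | g⁻¹ • x ∈ ctrs χ K ε a} := by
    rintro x ⟨s, hs, hx⟩
    obtain ⟨n, k, hk, -, hc, -⟩ := exists_of_mem_nw hχ hx
    simp only [Set.mem_iUnion, exists_prop]
    refine ⟨s⁻¹ * k, Finset.mul_mem_mul (Finset.inv_mem_inv hs) hk, ?_⟩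
    change (s⁻¹ * k)⁻¹ • x ∈ ctrs χ K ε a
    rw [mul_inv_rev, inv_inv, mul_smul]
    exact Set.mem_iUnion.2 ⟨n, hc⟩
  refine (measureReal_mono hsub (measure_ne_top _ _)).trans ?_
  refine (measureReal_biUnion_finset_le _ _).trans ?_
  have : ∀ g ∈ (S⁻¹ * K), P.real {x | g⁻¹ • x ∈ ctrs χ K ε a} = P.real (ctrs χ K ε a) :=
    fun g _ => real_preimage hP (measurableSet_ctrs hχm hχ hP ha) _
  rw [Finset.sum_congr rfl this]
  simp

/-- points newly covered by the tiles of colour `n` -/
def nwn (χ : X → ℕ) (K : Finset Γ) (ε : ℝ) (a : X → Option Γ) (n : ℕ) : Set X :=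
  {y | aseq χ K ε a n y = none ∧ (aseq χ K ε a (n + 1) y).isSome = true}

omit hχm hχ hP ha [IsProbabilityMeasure P] [Countable Γ] [MeasurableSpace X] in
lemma nwn_disjoint : Pairwise (Function.onFun Disjoint (nwn χ K ε a)) := by
  have key : ∀ n m, n < m → Disjoint (nwn χ K ε a n) (nwn χ K ε a m) := by
    intro n m hnm
    rw [Set.disjoint_left]
    intro y hy hy'
    have h1 := aseq_of_le (show n + 1 ≤ m from hnm) hy.2
    rw [hy'.1] at h1
    have h2 := hy.2
    rw [← h1] at h2
    simp at h2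
  intro n m hnm
  rcases lt_or_gt_of_ne hnm with h | h
  · exact key n m h
  · exact (key m n h).symm

omit hχm hχ hP ha [IsProbabilityMeasure P] [Countable Γ] [MeasurableSpace X] in
lemma nwn_subset (n : ℕ) : nwn χ K ε a n ⊆ nw χ K ε a := by
  intro y hy
  refine ⟨alim_isSome_iff.2 ⟨n + 1, hy.2⟩, ?_⟩
  by_contra hcon
  have h1 : (aseq χ K ε a 0 y).isSome := by
    change (a y).isSome
    rw [← Option.ne_none_iff_isSome]; exact hcon
  have h2 := aseq_of_le (Nat.zero_le n) h1
  rw [hy.1] at h2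
  rw [← h2] at h1
  simp at h1

omit [IsProbabilityMeasure P] in
lemma measurableSet_nwn (n : ℕ) : MeasurableSet (nwn χ K ε a n) :=
  (meas_aseq (fun γ => (hP γ).measurable) hχm hχ ha n).eq_none.inter
    (meas_aseq (fun γ => (hP γ).measurable) hχm hχ ha (n + 1)).isSome

lemma nwn_ge (n : ℕ) : (1 - ε) * K.card * P.real (ctr χ K ε (aseq χ K ε a n) n) ≤
    P.real (nwn χ K ε a n) := by
  classical
  have hmγ : ∀ γ : Γ, Measurable fun x : X => γ • x := fun γ => (hP γ).measurable
  have hma := meas_aseq (ε := ε) hmγ hχm hχ ha n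
  have hC := measurableSet_ctr (ε := ε) (K := K) hmγ hχm hma n
  set C := ctr χ K ε (aseq χ K ε a n) n with hCdef
  set S : Γ → Set X := fun k => {x | aseq χ K ε a n (k • x) = none} with hS
  have hSm : ∀ k ∈ K, MeasurableSet (S k) := fun k _ => (hP k).measurable hma.eq_none
  have h1 := count_ge (P := P) K S hSm C hC ((1 - ε) * K.card) (by
    intro x hx
    have hx2 : ((K.filter fun k => (aseq χ K ε a n (k • x)).isSome).card : ℝ) ≤ ε * K.card := hx.2
    have h3 : (K.filter fun k => (aseq χ K ε a n (k • x)).isSome).card +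
        (K.filter fun k => x ∈ S k).card = K.card := by
      rw [← Finset.card_filter_add_card_filter_not
        (s := K) (fun k => (aseq χ K ε a n (k • x)).isSome)]
      congr 2
      ext k
      simp [hS]
    have h4 : ((K.filter fun k => (aseq χ K ε a n (k • x)).isSome).card : ℝ) +
        ((K.filter fun k => x ∈ S k).card : ℝ) = K.card := by exact_mod_cast h3
    have h5 : (1 - ε) * K.card ≤ ((K.filter fun k => x ∈ S k).card : ℝ) := by linarith
    refine h5.trans (le_of_eq ?_)
    congr)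
  refine h1.trans ?_
  have h2 : ∀ k ∈ K, P.real (S k ∩ C) = P.real ({y | aseq χ K ε a n y = none} ∩
      {y | k⁻¹ • y ∈ C}) := by
    intro k _
    have hms : MeasurableSet ({y | aseq χ K ε a n y = none} ∩ {y | k⁻¹ • y ∈ C}) :=
      hma.eq_none.inter ((hP k⁻¹).measurable hC)
    rw [← real_preimage hP hms k]
    congr 1
    ext x
    simp [hS, inv_smul_smul]
  rw [Finset.sum_congr rfl h2, ← measureReal_biUnion_finset]
  · refine measureReal_mono ?_
    intro y hy
    simp only [Set.mem_iUnion, exists_prop] at hy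
    obtain ⟨k, hk, h3, h4⟩ := hy
    refine ⟨h3, ?_⟩
    have : aseq χ K ε a (n + 1) y = some k := (aseq_succ_eq_some_iff hχ).2 (Or.inr ⟨h3, hk, h4⟩)
    rw [this]; rfl
  · intro k hk l hl hkl
    rw [Function.onFun, Set.disjoint_left]
    intro y hy hy'
    exact hkl (ctr_unique hχ hk hl hy.2 hy'.2)
  · intro k _
    exact hma.eq_none.inter ((hP k⁻¹).measurable hC)

/-- the newly covered set is large compared with the number of new tiles -/
lemma nw_ge : (1 - ε) * K.card * P.real (ctrs χ K ε a) ≤ P.real (nw χ K ε a) := by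
  have hmγ : ∀ γ : Γ, Measurable fun x : X => γ • x := fun γ => (hP γ).measurable
  have h1 : HasSum (fun n => P.real (ctr χ K ε (aseq χ K ε a n) n)) (P.real (ctrs χ K ε a)) :=
    hasSum_real_iUnion ctr_disjoint fun n => measurableSet_ctr hmγ hχm
      (meas_aseq hmγ hχm hχ ha n) n
  have h2 : HasSum (fun n => P.real (nwn χ K ε a n)) (P.real (⋃ n, nwn χ K ε a n)) :=
    hasSum_real_iUnion nwn_disjoint fun n => measurableSet_nwn hχm hχ hP ha n
  have h3 := hasSum_le (fun n => nwn_ge hχm hχ hP ha n) (h1.mul_left ((1 - ε) * K.card)) h2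
  exact h3.trans (measureReal_mono (Set.iUnion_subset fun n => nwn_subset n))

end Pool.Agent.helper88.OW
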