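import Mathlib
import Pool.Agent.helper88.OW.Quant

/-!
# Boundary of the tiles of one level, and the multi-scale induction
-/

namespace Pool.Agent.helper88.OW

open MeasureTheory
open scoped Pointwise

variable {Γ : Type*} [Group Γ] [Countable Γ] {X : Type*} [MeasurableSpace X] [MulAction Γ X]
  {χ : X → ℕ} {K : Finset Γ} {ε : ℝ} {a : X → Option Γ}

omit [Group Γ] [Countable Γ] in
lemma card_filter_inst (s : Finset Γ) (p : Γ → Prop) (i j : DecidablePred p) :
    (@Finset.filter Γ p i s).card = (@Finset.filter Γ p j s).card := by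
  have : i = j := Subsingleton.elim _ _
  subst this
  rfl

/-- `x` and `r • x` lie in the same tile with compatible coordinates -/
def Lnk (a : X → Option Γ) (r : Γ) (x : X) : Prop := ∃ k, a x = some k ∧ a (r • x) = some (r * k)

lemma Meas.lnk {a : X → Option Γ} (ha : Meas a) (hm : ∀ γ : Γ, Measurable fun x : X => γ • x)
    (r : Γ) : MeasurableSet {x | Lnk a r x} := by
  have : {x | Lnk a r x} = ⋃ k, ({x | a x = some k} ∩ (fun x => r • x) ⁻¹' {y | a y = some (r * k)})
      := by
    ext x; simp [Lnk]
  rw [this]
  exact MeasurableSet.iUnion fun k => (ha k).inter ((hm r) (ha _))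

variable (hχm : Measurable χ) (hχ : ∀ k ∈ K, ∀ l ∈ K, k ≠ l → ∀ x, χ ((k⁻¹ * l) • x) ≠ χ x)
  {P : Measure X} [IsProbabilityMeasure P]
  (hP : ∀ γ : Γ, MeasurePreserving (fun x : X => γ • x) P P) (ha : Meas a)

include hχm hχ hP ha

open Classical in
lemma lnk_bad_le (r : Γ) :
    P.real {x | x ∈ nw χ K ε a ∧ ¬ Lnk (alim χ K ε a) r x} ≤
      (((K.filter fun k => r * k ∉ K).card : ℝ) + ε * K.card) * P.real (ctrs χ K ε a) := by
  have hmγ : ∀ γ : Γ, Measurable fun x : X => γ • x := fun γ => (hP γ).measurable
  set q : ℝ := ((K.filter fun k => r * k ∉ K).card : ℝ) + ε * K.card with hq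
  set C : ℕ → Set X := fun n => ctr χ K ε (aseq χ K ε a n) n with hCdef
  have hCm : ∀ n, MeasurableSet (C n) := fun n =>
    measurableSet_ctr (ε := ε) (K := K) hmγ hχm (meas_aseq hmγ hχm hχ ha n) n
  -- bad elements of K at the centre c, colour n
  let S : ℕ → Γ → Set X := fun n k =>
    {c | r * k ∉ K ∨ (aseq χ K ε a n ((r * k) • c)).isSome}
  have hSm : ∀ n k, MeasurableSet (S n k) := by
    intro n k
    by_cases h : r * k ∉ K
    · have : S n k = Set.univ := by ext c; simp [S, h]
      rw [this]; exact MeasurableSet.univ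
    · have : S n k = (fun c : X => (r * k) • c) ⁻¹' {y | (aseq χ K ε a n y).isSome = true} := by
        ext c; simp [S, h]
      rw [this]
      exact (hmγ _) (meas_aseq hmγ hχm hχ ha n).isSome
  let E : ℕ → Set X := fun n => ⋃ k ∈ K, {x | k⁻¹ • x ∈ S n k ∩ C n}
  have hsub : {x | x ∈ nw χ K ε a ∧ ¬ Lnk (alim χ K ε a) r x} ⊆ ⋃ n, E n := by
    rintro x ⟨hx, hl⟩
    obtain ⟨n, k, hk, hnone, hc, hlim⟩ := exists_of_mem_nw hχ hx
    refine Set.mem_iUnion.2 ⟨n, ?_⟩
    simp only [E, Set.mem_iUnion, exists_prop]
    refine ⟨k, hk, ⟨?_, hc⟩⟩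
    by_contra hcon
    simp only [S, Set.mem_ofPred_eq, not_or, not_not] at hcon
    obtain ⟨h1, h2⟩ := hcon
    have h3 : (r * k) • k⁻¹ • x = r • x := by rw [mul_smul, smul_inv_smul]
    rw [h3] at h2
    have h2' : aseq χ K ε a n (r • x) = none := by simpa using h2
    refine hl ⟨k, hlim, ?_⟩
    have h4 : aseq χ K ε a (n + 1) (r • x) = some (r * k) := by
      rw [aseq_succ_eq_some_iff hχ]
      refine Or.inr ⟨h2', h1, ?_⟩
      have : (r * k)⁻¹ • r • x = k⁻¹ • x := by
        rw [← h3, inv_smul_smul]
      rw [this]; exact hc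
    rw [alim_of_isSome (n := n + 1) (by rw [h4]; rfl), h4]
  have hE : ∀ n, P (E n) ≤ ENNReal.ofReal q * P (C n) := by
    intro n
    have h1 : P.real (E n) ≤ q * P.real (C n) := by
      calc P.real (E n) ≤ ∑ k ∈ K, P.real {x | k⁻¹ • x ∈ S n k ∩ C n} :=
            measureReal_biUnion_finset_le _ _
        _ = ∑ k ∈ K, P.real (S n k ∩ C n) :=
            Finset.sum_congr rfl fun k _ => real_preimage hP ((hSm n k).inter (hCm n)) _
        _ ≤ q * P.real (C n) := by
            refine count_le K (S n) (fun k _ => hSm n k) (C n) (hCm n) q ?_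
            intro c hc
            have h5 : ((K.filter fun k => (aseq χ K ε a n (k • c)).isSome).card : ℝ) ≤
              ε * K.card := hc.2
            have h6 : (K.filter fun k => c ∈ S n k).card ≤
                (K.filter fun k => r * k ∉ K).card +
                  (K.filter fun k => (aseq χ K ε a n (k • c)).isSome).card := by
              have h7 : K.filter (fun k => c ∈ S n k) ⊆
                  (K.filter fun k => r * k ∉ K) ∪
                    (K.filter fun k => (r * k) ∈ K ∧
                      (aseq χ K ε a n ((r * k) • c)).isSome) := by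
                intro k hk
                rw [Finset.mem_filter] at hk
                rw [Finset.mem_union, Finset.mem_filter, Finset.mem_filter]
                by_cases h : r * k ∈ K
                · rcases hk.2 with h8 | h8
                  · exact absurd h h8
                  · exact Or.inr ⟨hk.1, h, h8⟩
                · exact Or.inl ⟨hk.1, h⟩
              refine (Finset.card_le_card h7).trans ((Finset.card_union_le _ _).trans ?_)
              refine Nat.add_le_add_left ?_ _
              refine Finset.card_le_card_of_injOn (fun k => r * k) ?_ ?_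
              · intro k hk
                simp only [Finset.coe_filter, Set.mem_ofPred_eq] at hk ⊢
                exact ⟨hk.2.1, hk.2.2⟩
              · intro k _ l _ h
                exact mul_left_cancel h
            have h8 : ((K.filter fun k => c ∈ S n k).card : ℝ) ≤
                ((K.filter fun k => r * k ∉ K).card : ℝ) +
                  ((K.filter fun k => (aseq χ K ε a n (k • c)).isSome).card : ℝ) := by
              exact_mod_cast h6
            have h9 : ((K.filter fun k => c ∈ S n k).card : ℝ) ≤ q := by
              rw [hq]; linarith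
            refine le_trans (le_of_eq ?_) h9
            rw [Nat.cast_inj]
            exact card_filter_inst _ _ _ _
    have hq0 : 0 ≤ q * P.real (C n) := le_trans measureReal_nonneg h1
    have h2 : P (E n) = ENNReal.ofReal (P.real (E n)) := by
      rw [Measure.real, ENNReal.ofReal_toReal (measure_ne_top _ _)]
    have h3 : P (C n) = ENNReal.ofReal (P.real (C n)) := by
      rw [Measure.real, ENNReal.ofReal_toReal (measure_ne_top _ _)]
    rw [h2, h3, ← ENNReal.ofReal_mul' measureReal_nonneg]
    exact ENNReal.ofReal_le_ofReal h1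
  by_cases hq0 : 0 ≤ q
  · have h1 : P {x | x ∈ nw χ K ε a ∧ ¬ Lnk (alim χ K ε a) r x} ≤
        ENNReal.ofReal q * P (ctrs χ K ε a) := by
      calc _ ≤ P (⋃ n, E n) := measure_mono hsub
        _ ≤ ∑' n, P (E n) := measure_iUnion_le _
        _ ≤ ∑' n, ENNReal.ofReal q * P (C n) := ENNReal.tsum_le_tsum hE
        _ = ENNReal.ofReal q * P (ctrs χ K ε a) := by
            rw [ENNReal.tsum_mul_left]
            congr 1
            exact (measure_iUnion ctr_disjoint hCm).symm
    have h2 := ENNReal.toReal_mono (by
      exact ENNReal.mul_ne_top ENNReal.ofReal_ne_top (measure_ne_top _ _)) h1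
    rw [ENNReal.toReal_mul, ENNReal.toReal_ofReal hq0] at h2
    exact h2
  · -- then all C n are null and everything is zero
    push Not at hq0
    have hE0 : ∀ n, P (E n) = 0 := by
      intro n
      have := hE n
      rw [ENNReal.ofReal_of_nonpos hq0.le, zero_mul] at this
      exact le_antisymm this zero_le
    have hU : P (⋃ n, E n) = 0 := measure_iUnion_null hE0
    have hz : P.real {x | x ∈ nw χ K ε a ∧ ¬ Lnk (alim χ K ε a) r x} = 0 := by
      rw [Measure.real, measure_mono_null hsub hU, ENNReal.toReal_zero]
    -- `q < 0` is impossible unless `ctrs` is empty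
    have hempty : ctrs χ K ε a = ∅ := by
      rw [Set.eq_empty_iff_forall_notMem]
      intro c hc
      obtain ⟨n, hn⟩ := Set.mem_iUnion.1 hc
      have h5 : ((K.filter fun k => (aseq χ K ε a n (k • c)).isSome).card : ℝ) ≤
        ε * K.card := hn.2
      have h6 : (0 : ℝ) ≤ ((K.filter fun k => (aseq χ K ε a n (k • c)).isSome).card : ℝ) := by
        positivity
      have h7 : (0 : ℝ) ≤ ((K.filter fun k => r * k ∉ K).card : ℝ) := by positivity
      linarith
    rw [hz, hempty]
    simp

end Pool.Agent.helper88.OW
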