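import Mathlib
import Pool.Agent.helper88.OW.Bdry

/-!
# The multi-scale induction: quasi-tilings and hyperfinite partitions
-/

namespace Pool.Agent.helper88.OW

open MeasureTheory
open scoped Pointwise

variable {Γ : Type*} [Group Γ] {X : Type*} [MeasurableSpace X] [MulAction Γ X]

/-- the invariant of the induction -/
structure State (P : Measure X) (R S : Finset Γ) (κ δ : ℝ) (a : X → Option Γ) : Prop where
  meas : Meas a
  fin : ∃ T : Finset Γ, ∀ y k, a y = some k → k ∈ T
  bad : P.real {x | (a x).isSome ∧ ∃ r ∈ R, ¬ Lnk a r x} ≤ δ * P.real {x | (a x).isSome = true}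
  nbhd : P.real {x | ∃ s ∈ S, (a (s • x)).isSome} ≤ κ * P.real {x | (a x).isSome = true}

variable {χ : X → ℕ} {K : Finset Γ} {ε η : ℝ} {a : X → Option Γ}

omit [MeasurableSpace X] in
lemma alim_of_some {y : X} (h : (a y).isSome) : alim χ K ε a y = a y :=
  alim_of_isSome (n := 0) h

omit [MeasurableSpace X] in
lemma alim_isSome_of_iff {y : X} :
    (alim χ K ε a y).isSome ↔ (a y).isSome ∨ y ∈ nw χ K ε a := by
  constructor
  · intro h
    by_cases h1 : (a y).isSome
    · exact Or.inl h1
    · exact Or.inr ⟨h, by simpa using h1⟩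
  · rintro (h | h)
    · rw [alim_of_some h]; exact h
    · exact h.1

omit [MeasurableSpace X] in
lemma lnk_alim {r : Γ} {x : X} (h : Lnk a r x) : Lnk (alim χ K ε a) r x := by
  obtain ⟨k, h1, h2⟩ := h
  refine ⟨k, ?_, ?_⟩
  · rw [alim_of_some (by rw [h1]; rfl), h1]
  · rw [alim_of_some (by rw [h2]; rfl), h2]

lemma State.step [Countable Γ] [DecidableEq Γ] {P : Measure X} [IsProbabilityMeasure P]
    {R S : Finset Γ} (hε0 : 0 < ε) (hε1 : ε < 1)
    (hK : K.Nonempty) (hKR : ∀ r ∈ R, ((K.filter fun k => r * k ∉ K).card : ℝ) ≤ η * K.card)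
    (hKS : ((S⁻¹ * K).card : ℝ) ≤ (1 + η) * K.card)
    (hχm : Measurable χ) (hχ : ∀ k ∈ K, ∀ l ∈ K, k ≠ l → ∀ x, χ ((k⁻¹ * l) • x) ≠ χ x)
    (hP : ∀ γ : Γ, MeasurePreserving (fun x : X => γ • x) P P)
    (h : State P R (S ∪ K) ((1 + η) / (1 - ε)) (R.card * (η + ε) / (1 - ε)) a) :
    State P R S ((1 + η) / (1 - ε)) (R.card * (η + ε) / (1 - ε)) (alim χ K ε a) ∧
      P.real {x | (a x).isSome = true} +
        ε * (1 - (1 + η) / (1 - ε) * P.real {x | (a x).isSome = true}) ≤
      P.real {x | (alim χ K ε a x).isSome = true} := by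
  have hmγ : ∀ γ : Γ, Measurable fun x : X => γ • x := fun γ => (hP γ).measurable
  set κ := (1 + η) / (1 - ε) with hκ
  set δ := R.card * (η + ε) / (1 - ε) with hδ
  have ha := h.meas
  have hal : Meas (alim χ K ε a) := meas_alim hmγ hχm hχ ha
  have hnm : MeasurableSet (nw χ K ε a) := measurableSet_nw hχm hχ hP ha
  have h1ε : 0 < 1 - ε := by linarith
  -- covered mass
  have hcov : P.real {x | (alim χ K ε a x).isSome = true} =
      P.real {x | (a x).isSome = true} + P.real (nw χ K ε a) := by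
    rw [← measureReal_union _ hnm]
    · congr 1
      ext x
      exact alim_isSome_of_iff
    · rw [Set.disjoint_left]
      rintro x hx ⟨-, hx2⟩
      simp only [Set.mem_ofPred_eq] at hx
      rw [hx2] at hx; simp at hx
  have hctr : K.card * P.real (ctrs χ K ε a) ≤ P.real (nw χ K ε a) / (1 - ε) := by
    rw [le_div_iff₀ h1ε]
    have := nw_ge (ε := ε) hχm hχ hP ha
    linarith
  have hctr0 : 0 ≤ P.real (ctrs χ K ε a) := measureReal_nonneg
  refine ⟨⟨hal, ?_, ?_, ?_⟩, ?_⟩
  · obtain ⟨T, hT⟩ := h.fin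
    refine ⟨T ∪ K, fun y k hk => ?_⟩
    have h1 : (alim χ K ε a y).isSome := by rw [hk]; rfl
    rcases alim_isSome_of_iff.1 h1 with h2 | h2
    · rw [alim_of_some h2] at hk
      exact Finset.mem_union_left _ (hT y k hk)
    · obtain ⟨n, k', hk', -, -, h3⟩ := exists_of_mem_nw hχ h2
      rw [hk, Option.some.injEq] at h3
      rw [h3]
      exact Finset.mem_union_right _ hk'
  · have hsub : {x | (alim χ K ε a x).isSome ∧ ∃ r ∈ R, ¬ Lnk (alim χ K ε a) r x} ⊆
        {x | (a x).isSome ∧ ∃ r ∈ R, ¬ Lnk a r x} ∪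
          ⋃ r ∈ R, {x | x ∈ nw χ K ε a ∧ ¬ Lnk (alim χ K ε a) r x} := by
      rintro x ⟨h1, r, hr, h2⟩
      rcases alim_isSome_of_iff.1 h1 with h3 | h3
      · exact Or.inl ⟨h3, r, hr, fun h4 => h2 (lnk_alim h4)⟩
      · right
        simp only [Set.mem_iUnion, exists_prop]
        exact ⟨r, hr, h3, h2⟩
    have hb : P.real (⋃ r ∈ R, {x | x ∈ nw χ K ε a ∧ ¬ Lnk (alim χ K ε a) r x}) ≤
        δ * P.real (nw χ K ε a) := by
      calc _ ≤ ∑ r ∈ R, P.real {x | x ∈ nw χ K ε a ∧ ¬ Lnk (alim χ K ε a) r x} :=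
            measureReal_biUnion_finset_le _ _
        _ ≤ ∑ r ∈ R, (η + ε) / (1 - ε) * P.real (nw χ K ε a) := by
            refine Finset.sum_le_sum fun r hr => ?_
            have h0 := lnk_bad_le (ε := ε) hχm hχ hP ha r
            rw [card_filter_inst K (fun k => r * k ∉ K) _ (fun k => instDecidableNot)] at h0
            refine h0.trans ?_
            have h1 := hKR r hr
            have h2 : ((((K.filter fun k => r * k ∉ K).card : ℝ)) + ε * K.card) *
                P.real (ctrs χ K ε a) ≤ (η + ε) * (K.card * P.real (ctrs χ K ε a)) := by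
              calc _ ≤ (η * K.card + ε * K.card) * P.real (ctrs χ K ε a) := by
                    refine mul_le_mul_of_nonneg_right ?_ hctr0
                    linarith
                _ = _ := by ring
            refine h2.trans ?_
            have hη : 0 ≤ η + ε := by
              have h3 : 0 ≤ η * K.card := le_trans (by positivity) h1
              have h4 : (0 : ℝ) < K.card := by exact_mod_cast hK.card_pos
              have h5 : 0 ≤ η := by
                by_contra hcon
                push Not at hcon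
                nlinarith
              linarith
            calc (η + ε) * (K.card * P.real (ctrs χ K ε a)) ≤
                  (η + ε) * (P.real (nw χ K ε a) / (1 - ε)) :=
                  mul_le_mul_of_nonneg_left hctr hη
              _ = _ := by ring
        _ = δ * P.real (nw χ K ε a) := by
            rw [Finset.sum_const, nsmul_eq_mul, hδ]
            ring
    calc _ ≤ P.real ({x | (a x).isSome ∧ ∃ r ∈ R, ¬ Lnk a r x} ∪
          ⋃ r ∈ R, {x | x ∈ nw χ K ε a ∧ ¬ Lnk (alim χ K ε a) r x}) := measureReal_mono hsub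
      _ ≤ _ := measureReal_union_le _ _
      _ ≤ δ * P.real {x | (a x).isSome = true} + δ * P.real (nw χ K ε a) := add_le_add h.bad hb
      _ = _ := by rw [hcov]; ring
  · have hsub : {x | ∃ s ∈ S, (alim χ K ε a (s • x)).isSome} ⊆
        {x | ∃ s ∈ S ∪ K, (a (s • x)).isSome} ∪ {x | ∃ s ∈ S, s • x ∈ nw χ K ε a} := by
      rintro x ⟨s, hs, h1⟩
      rcases alim_isSome_of_iff.1 h1 with h3 | h3
      · exact Or.inl ⟨s, Finset.mem_union_left _ hs, h3⟩
      · exact Or.inr ⟨s, hs, h3⟩
    have hb : P.real {x | ∃ s ∈ S, s • x ∈ nw χ K ε a} ≤ κ * P.real (nw χ K ε a) := by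
      refine (nbhd_le hχm hχ hP ha S).trans ?_
      have hη : 0 ≤ 1 + η := by
        have h4 : (0 : ℝ) < K.card := by exact_mod_cast hK.card_pos
        by_contra hcon
        push Not at hcon
        have h5 : (0 : ℝ) ≤ ((S⁻¹ * K).card : ℝ) := by positivity
        nlinarith
      calc ((S⁻¹ * K).card : ℝ) * P.real (ctrs χ K ε a) ≤
            ((1 + η) * K.card) * P.real (ctrs χ K ε a) :=
            mul_le_mul_of_nonneg_right hKS hctr0
        _ = (1 + η) * (K.card * P.real (ctrs χ K ε a)) := by ring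
        _ ≤ (1 + η) * (P.real (nw χ K ε a) / (1 - ε)) := mul_le_mul_of_nonneg_left hctr hη
        _ = _ := by rw [hκ]; ring
    calc _ ≤ P.real ({x | ∃ s ∈ S ∪ K, (a (s • x)).isSome} ∪
          {x | ∃ s ∈ S, s • x ∈ nw χ K ε a}) := measureReal_mono hsub
      _ ≤ _ := measureReal_union_le _ _
      _ ≤ κ * P.real {x | (a x).isSome = true} + κ * P.real (nw χ K ε a) :=
          add_le_add h.nbhd hb
      _ = _ := by rw [hcov]; ring
  · rw [hcov]
    have h1 := cover_ge (ε := ε) hχm hχ hP ha hε1.le hK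
    have h2 : 1 - κ * P.real {x | (a x).isSome = true} ≤
        P.real {x | ∀ k ∈ K, a (k • x) = none} := by
      have h3 : {x | ∀ k ∈ K, a (k • x) = none} = {x | ∃ s ∈ K, (a (s • x)).isSome = true}ᶜ := by
        ext x
        simp
      have h4 : MeasurableSet {x | ∃ s ∈ K, (a (s • x)).isSome = true} := by
        have : {x | ∃ s ∈ K, (a (s • x)).isSome = true} =
            ⋃ s ∈ K, (fun x : X => s • x) ⁻¹' {y | (a y).isSome = true} := by
          ext x; simp
        rw [this]
        exact Finset.measurableSet_biUnion _ fun s _ => (hmγ s) ha.isSome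
      rw [h3, probReal_compl_eq_one_sub h4]
      have h5 : P.real {x | ∃ s ∈ K, (a (s • x)).isSome = true} ≤
          κ * P.real {x | (a x).isSome = true} := by
        refine le_trans (measureReal_mono ?_) h.nbhd
        rintro x ⟨s, hs, h6⟩
        exact ⟨s, Finset.mem_union_right _ hs, h6⟩
      linarith
    nlinarith

/-- The Følner condition (in multiplicative form). -/
def Folner (Γ : Type*) [Group Γ] [DecidableEq Γ] : Prop :=
  ∀ (S : Finset Γ) (η : ℝ), 0 < η → ∃ K : Finset Γ, K.Nonempty ∧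
    ((S * K).card : ℝ) ≤ (1 + η) * K.card

lemma Folner.exists_shape [DecidableEq Γ] (hF : Folner Γ) (R S : Finset Γ) {η : ℝ} (hη : 0 < η) :
    ∃ K : Finset Γ, K.Nonempty ∧ (∀ r ∈ R, ((K.filter fun k => r * k ∉ K).card : ℝ) ≤ η * K.card) ∧
      ((S⁻¹ * K).card : ℝ) ≤ (1 + η) * K.card := by
  obtain ⟨K, hK, hc⟩ := hF (R ∪ S⁻¹ ∪ {1}) η hη
  refine ⟨K, hK, ?_, ?_⟩
  · intro r hr
    have h1 : (K.filter fun k => r * k ∉ K).card + K.card ≤ ((R ∪ S⁻¹ ∪ {1}) * K).card := by
      have h2 : ((K.filter fun k => r * k ∉ K).image fun k => r * k) ∪ K ⊆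
          (R ∪ S⁻¹ ∪ {1}) * K := by
        intro x hx
        rcases Finset.mem_union.1 hx with h | h
        · obtain ⟨k, hk, rfl⟩ := Finset.mem_image.1 h
          refine Finset.mul_mem_mul ?_ (Finset.mem_filter.1 hk).1
          exact Finset.mem_union_left _ (Finset.mem_union_left _ hr)
        · have := Finset.mul_mem_mul (show (1 : Γ) ∈ R ∪ S⁻¹ ∪ {1} from
            Finset.mem_union_right _ (Finset.mem_singleton_self 1)) h
          rwa [one_mul] at this
      have h3 : Disjoint ((K.filter fun k => r * k ∉ K).image fun k => r * k) K := by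
        rw [Finset.disjoint_left]
        intro x hx
        obtain ⟨k, hk, rfl⟩ := Finset.mem_image.1 hx
        exact (Finset.mem_filter.1 hk).2
      have h4 := Finset.card_le_card h2
      rw [Finset.card_union_of_disjoint h3, Finset.card_image_of_injective] at h4
      · exact h4
      · exact mul_right_injective r
    have h5 : ((K.filter fun k => r * k ∉ K).card : ℝ) + K.card ≤
        (((R ∪ S⁻¹ ∪ {1}) * K).card : ℝ) := by exact_mod_cast h1
    linarith
  · refine le_trans ?_ hc
    exact_mod_cast Finset.card_le_card (Finset.mul_subset_mul_right (by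
      intro x hx
      exact Finset.mem_union_left _ (Finset.mem_union_right _ hx)))

/-- The multi-scale induction. -/
lemma exists_state [Countable Γ] [DecidableEq Γ] (hF : Folner Γ)
    {P : Measure X} [IsProbabilityMeasure P]
    (hP : ∀ γ : Γ, MeasurePreserving (fun x : X => γ • x) P P)
    (ι : X → ℝ) (hι : Measurable ι) (hinj : Function.Injective ι)
    (hfree : ∀ (γ : Γ) (x : X), γ • x = x → γ = 1)
    (R : Finset Γ) (hε0 : 0 < ε) (hε1 : ε < 1) (hη : 0 < η)
    (hεη : ε * ((1 + η) / (1 - ε)) ≤ 1) (m : ℕ) :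
    ∀ S : Finset Γ, ∃ a : X → Option Γ,
      State P R S ((1 + η) / (1 - ε)) (R.card * (η + ε) / (1 - ε)) a ∧
      ((1 + η) / (1 - ε))⁻¹ - P.real {x | (a x).isSome = true} ≤
        (1 - ε * ((1 + η) / (1 - ε))) ^ m * ((1 + η) / (1 - ε))⁻¹ := by
  have h1ε : 0 < 1 - ε := by linarith
  induction m with
  | zero =>
    intro S
    refine ⟨fun _ => none, ⟨?_, ⟨∅, ?_⟩, ?_, ?_⟩, ?_⟩
    · intro k
      simp
    · intro y k h; simp at h
    · simp
    · simp
    · simp
  | succ m ih =>
    intro S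
    obtain ⟨K, hK, hKR, hKS⟩ := hF.exists_shape R S hη
    obtain ⟨a, hst, hc⟩ := ih (S ∪ K)
    obtain ⟨χ, hχm, hχ⟩ := exists_coloring (fun γ => (hP γ).measurable) ι hι hinj hfree
      ((K⁻¹ * K).erase 1) (Finset.notMem_erase _ _)
    have hχ' : ∀ k ∈ K, ∀ l ∈ K, k ≠ l → ∀ x, χ ((k⁻¹ * l) • x) ≠ χ x := by
      intro k hk l hl hkl x
      refine hχ _ (Finset.mem_erase.2 ⟨?_, Finset.mul_mem_mul (Finset.inv_mem_inv hk) hl⟩) x
      intro h
      exact hkl (inv_mul_eq_one.1 h)
    have hstep := State.step (ε := ε) (η := η) (χ := χ) (K := K) (S := S) (R := R) (a := a) (P := P)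
      hε0 hε1 hK hKR hKS hχm hχ' hP hst
    refine ⟨alim χ K ε a, hstep.1, ?_⟩
    have h2 := hstep.2
    set κ := (1 + η) / (1 - ε) with hκ
    have hκ0 : 0 < κ := by rw [hκ]; positivity
    set c := P.real {x | (a x).isSome = true} with hcdef
    have h3 : κ⁻¹ - P.real {x | (alim χ K ε a x).isSome = true} ≤ (1 - ε * κ) * (κ⁻¹ - c) := by
      have h4 : (1 - ε * κ) * (κ⁻¹ - c) = κ⁻¹ - (c + ε * (1 - κ * c)) := by
        have : κ * κ⁻¹ = 1 := mul_inv_cancel₀ hκ0.ne'
        linear_combination (-ε) * this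
      rw [h4]
      linarith
    have h5 : 0 ≤ 1 - ε * κ := by linarith
    calc _ ≤ (1 - ε * κ) * (κ⁻¹ - c) := h3
      _ ≤ (1 - ε * κ) * ((1 - ε * κ) ^ m * κ⁻¹) := mul_le_mul_of_nonneg_left hc h5
      _ = _ := by ring

end Pool.Agent.helper88.OW
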