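import Mathlib
import Pool.Agent.helper88.OW.Tile

/-!
# Hyperfiniteness of free measure preserving actions of amenable groups (Ornstein-Weiss)

`exists_cell`: partition into finite pieces `cell x • x` of bounded size such that, outside a set
of small measure, `R ⊆ cell x`.  `exists_nested_cells`: an increasing sequence of such partitions.
-/

namespace Pool.Agent.helper88.OW

open MeasureTheory
open scoped Pointwise

variable {Γ : Type*} [Group Γ] {X : Type*} [MeasurableSpace X] [MulAction Γ X]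

/-- `cell` describes a measurable partition of `X` into finite pieces, each contained in an
orbit: the piece of `x` is `{γ • x | γ ∈ cell x}`. -/
structure IsCell (cell : X → Finset Γ) (F : Finset Γ) : Prop where
  meas : ∀ γ, MeasurableSet {x | γ ∈ cell x}
  one_mem : ∀ x, 1 ∈ cell x
  subset : ∀ x, cell x ⊆ F
  smul_mem : ∀ x γ, γ ∈ cell x → ∀ δ, δ ∈ cell (γ • x) ↔ δ * γ ∈ cell x

lemma exists_params (N : ℕ) {e : ℝ} (he : 0 < e) : ∃ ε : ℝ, 0 < ε ∧ ε < 1 ∧
    ε * ((1 + ε) / (1 - ε)) < 1 ∧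
    1 - ((1 + ε) / (1 - ε))⁻¹ + N * (ε + ε) / (1 - ε) ≤ e / 2 := by
  obtain ⟨ε, hε0, hε1⟩ : ∃ ε : ℝ, 0 < ε ∧ ε ≤ min (1 / 4) (e / (4 * (1 + 2 * N + 1))) :=
    ⟨min (1 / 4) (e / (4 * (1 + 2 * N + 1))), by positivity, le_rfl⟩
  have h1 : ε ≤ 1 / 4 := hε1.trans (min_le_left _ _)
  have h2 : ε ≤ e / (4 * (1 + 2 * N + 1)) := hε1.trans (min_le_right _ _)
  rw [le_div_iff₀ (by positivity)] at h2
  have h3 : 0 < 1 - ε := by linarith
  refine ⟨ε, hε0, by linarith, ?_, ?_⟩
  · rw [← mul_div_assoc, div_lt_one h3]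
    nlinarith
  · have h4 : 1 - ((1 + ε) / (1 - ε))⁻¹ ≤ 2 * ε := by
      rw [inv_div]
      have : (1 - ε) / (1 + ε) = 1 - 2 * ε / (1 + ε) := by
        field_simp
        ring
      rw [this]
      have h5 : 2 * ε / (1 + ε) ≤ 2 * ε := by
        rw [div_le_iff₀ (by linarith)]
        nlinarith
      linarith
    have h5 : N * (ε + ε) / (1 - ε) ≤ 4 * ε * N := by
      rw [div_le_iff₀ h3]
      have : (0 : ℝ) ≤ N := by positivity
      nlinarith [mul_nonneg this hε0.le]
    have : (0 : ℝ) ≤ N := by positivity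
    nlinarith

/-- **Ornstein-Weiss**: a free probability measure preserving action of an amenable group is
hyperfinite. -/
theorem exists_cell [Countable Γ] [DecidableEq Γ] (hF : Folner Γ)
    {P : Measure X} [IsProbabilityMeasure P]
    (hP : ∀ γ : Γ, MeasurePreserving (fun x : X => γ • x) P P)
    (ι : X → ℝ) (hι : Measurable ι) (hinj : Function.Injective ι)
    (hfree : ∀ (γ : Γ) (x : X), γ • x = x → γ = 1)
    (R : Finset Γ) {e : ℝ} (he : 0 < e) :
    ∃ (cell : X → Finset Γ) (F : Finset Γ), IsCell cell F ∧ P.real {x | ¬ R ⊆ cell x} ≤ e := by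
  classical
  obtain ⟨ε, hε0, hε1, hεκ, hεe⟩ := exists_params R.card he
  set κ := (1 + ε) / (1 - ε) with hκ
  have h1ε : 0 < 1 - ε := by linarith
  have hκ0 : 0 < κ := by rw [hκ]; positivity
  have hκ1 : κ⁻¹ ≤ 1 := by
    rw [inv_le_one₀ hκ0, hκ, le_div_iff₀ h1ε]
    linarith
  obtain ⟨m, hm⟩ : ∃ m : ℕ, (1 - ε * κ) ^ m ≤ e / 2 := by
    obtain ⟨m, hm⟩ := exists_pow_lt_of_lt_one (show (0 : ℝ) < e / 2 by linarith)
      (show 1 - ε * κ < 1 by
        have : 0 < ε * κ := by positivity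
        linarith)
    exact ⟨m, hm.le⟩
  obtain ⟨a, hst, hc⟩ := exists_state hF hP ι hι hinj hfree R hε0 hε1 hε0 hεκ.le m ∅
  rw [← hκ] at hc hst
  obtain ⟨T, hT⟩ := hst.fin
  have hmγ : ∀ γ : Γ, Measurable fun x : X => γ • x := fun γ => (hP γ).measurable
  let F : Finset Γ := insert 1 (T * T⁻¹)
  let cell : X → Finset Γ := fun x => F.filter fun γ => γ = 1 ∨ Lnk a γ x
  have hmem : ∀ x γ, γ ∈ cell x ↔ (γ = 1 ∨ Lnk a γ x) := by
    intro x γ
    simp only [cell, Finset.mem_filter]
    constructor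
    · exact fun h => h.2
    · intro h
      refine ⟨?_, h⟩
      rcases h with h | ⟨k, h1, h2⟩
      · rw [h]; exact Finset.mem_insert_self _ _
      · refine Finset.mem_insert_of_mem ?_
        have h3 := hT _ _ h1
        have h4 := hT _ _ h2
        have : γ = (γ * k) * k⁻¹ := by group
        rw [this]
        exact Finset.mul_mem_mul h4 (Finset.inv_mem_inv h3)
  refine ⟨cell, F, ⟨?_, ?_, ?_, ?_⟩, ?_⟩
  · intro γ
    have : {x | γ ∈ cell x} = {x | γ = 1 ∨ Lnk a γ x} := by ext x; exact hmem x γ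
    rw [this]
    by_cases h : γ = 1
    · have : {x : X | γ = 1 ∨ Lnk a γ x} = Set.univ := by ext x; simp [h]
      rw [this]; exact MeasurableSet.univ
    · have : {x : X | γ = 1 ∨ Lnk a γ x} = {x | Lnk a γ x} := by ext x; simp [h]
      rw [this]; exact hst.meas.lnk hmγ γ
  · intro x
    rw [hmem]; exact Or.inl rfl
  · intro x
    exact Finset.filter_subset _ _
  · intro x γ hγ δ
    rw [hmem] at hγ
    rw [hmem, hmem]
    rcases hγ with rfl | ⟨k, h1, h2⟩
    · rw [one_smul, mul_one]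
    · constructor
      · rintro (rfl | ⟨l, h3, h4⟩)
        · right
          rw [one_mul]
          exact ⟨k, h1, h2⟩
        · right
          rw [h2, Option.some.injEq] at h3
          refine ⟨k, h1, ?_⟩
          rw [mul_smul, h4, ← h3, mul_assoc]
      · rintro (h3 | ⟨l, h3, h4⟩)
        · -- δ * γ = 1
          right
          refine ⟨γ * k, h2, ?_⟩
          rw [← mul_smul, h3, one_smul, h1, ← mul_assoc, h3, one_mul]
        · rw [h1, Option.some.injEq] at h3
          right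
          refine ⟨γ * k, h2, ?_⟩
          rw [← mul_smul, h4, ← h3, mul_assoc]
  · have hsub : {x | ¬ R ⊆ cell x} ⊆ {x | (a x).isSome = true}ᶜ ∪
        {x | (a x).isSome ∧ ∃ r ∈ R, ¬ Lnk a r x} := by
      intro x hx
      by_cases h : (a x).isSome
      · right
        refine ⟨h, ?_⟩
        simp only [Set.mem_ofPred_eq, Finset.subset_iff, not_forall] at hx
        obtain ⟨r, hr, hx⟩ := hx
        refine ⟨r, hr, fun h2 => hx ?_⟩
        rw [hmem]
        exact Or.inr h2
      · left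
        exact h
    have h1 : P.real {x | (a x).isSome = true}ᶜ = 1 - P.real {x | (a x).isSome = true} :=
      probReal_compl_eq_one_sub hst.meas.isSome
    have h2 := hst.bad
    set c := P.real {x | (a x).isSome = true} with hcdef
    have hc1 : c ≤ 1 := measureReal_le_one
    have hδ0 : 0 ≤ R.card * (ε + ε) / (1 - ε) := by positivity
    calc _ ≤ _ := measureReal_mono hsub
      _ ≤ _ := measureReal_union_le _ _
      _ ≤ (1 - c) + R.card * (ε + ε) / (1 - ε) * c := by rw [h1]; exact add_le_add le_rfl h2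
      _ ≤ (1 - c) + R.card * (ε + ε) / (1 - ε) := by nlinarith
      _ ≤ e := by
        have h3 : (1 - ε * κ) ^ m * κ⁻¹ ≤ e / 2 := by
          have h4 : 0 ≤ (1 - ε * κ) ^ m := by
            apply pow_nonneg
            linarith
          calc _ ≤ (1 - ε * κ) ^ m * 1 := mul_le_mul_of_nonneg_left hκ1 h4
            _ ≤ e / 2 := by rw [mul_one]; exact hm
        linarith

section nested

variable [Countable Γ] [DecidableEq Γ]

/-- raw data at one stage of the nested construction -/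
structure Stage (X Γ : Type*) where
  R : Finset Γ
  e : ℝ
  cell : X → Finset Γ
  F : Finset Γ

/-- a stage is correct -/
structure Stage.Ok (P : Measure X) (s : Stage X Γ) : Prop where
  pos : 0 < s.e
  isCell : IsCell s.cell s.F
  le : P.real {x | ¬ s.R ⊆ s.cell x} ≤ s.e

variable {P : Measure X} [IsProbabilityMeasure P]

omit [Countable Γ] [IsProbabilityMeasure P] in
lemma exists_stage_succ
    (hex : ∀ (R : Finset Γ) (e : ℝ), 0 < e → ∃ (cell : X → Finset Γ) (F : Finset Γ),
      IsCell cell F ∧ P.real {x | ¬ R ⊆ cell x} ≤ e)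
    (R : ℕ → Finset Γ → Finset Γ) (e : ℕ → Finset Γ → ℝ) (he : ∀ k F, 0 < e k F)
    (k : ℕ) (s : Stage X Γ) (hs : s.Ok P) :
    ∃ t : Stage X Γ, t.Ok P ∧ s.R ⊆ t.R ∧ R (k + 1) s.F ⊆ t.R ∧ t.e ≤ s.e / 2 ∧
      t.e ≤ e (k + 1) s.F / 2 := by
  obtain ⟨cell, F, h1, h2⟩ := hex (s.R ∪ R (k + 1) s.F) (min (s.e / 2) (e (k + 1) s.F / 2))
    (lt_min (half_pos hs.pos) (half_pos (he _ _)))
  exact ⟨⟨s.R ∪ R (k + 1) s.F, min (s.e / 2) (e (k + 1) s.F / 2), cell, F⟩,
    ⟨lt_min (half_pos hs.pos) (half_pos (he _ _)), h1, h2⟩, Finset.subset_union_left,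
    Finset.subset_union_right, min_le_left _ _, min_le_right _ _⟩

omit [Countable Γ] in
/-- **Nested Ornstein-Weiss partitions.**  The requirement at stage `k + 1` may depend on the
bound `F k` of stage `k`. -/
theorem exists_nested_of
    (hex : ∀ (R : Finset Γ) (e : ℝ), 0 < e → ∃ (cell : X → Finset Γ) (F : Finset Γ),
      IsCell cell F ∧ P.real {x | ¬ R ⊆ cell x} ≤ e)
    (R : ℕ → Finset Γ → Finset Γ) (e : ℕ → Finset Γ → ℝ) (he : ∀ k F, 0 < e k F) :
    ∃ (cell : ℕ → X → Finset Γ) (F : ℕ → Finset Γ), (∀ k, IsCell (cell k) (F k)) ∧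
      (∀ k x, cell k x ⊆ cell (k + 1) x) ∧
      P.real {x | ¬ R 0 ∅ ⊆ cell 0 x} ≤ e 0 ∅ ∧
      ∀ k, P.real {x | ¬ R (k + 1) (F k) ⊆ cell (k + 1) x} ≤ e (k + 1) (F k) := by
  classical
  obtain ⟨s0, hs0, hs0R, hs0e⟩ : ∃ s : Stage X Γ, s.Ok P ∧ R 0 ∅ ⊆ s.R ∧ s.e ≤ e 0 ∅ / 2 := by
    obtain ⟨cell, F, h1, h2⟩ := hex (R 0 ∅) (e 0 ∅ / 2) (half_pos (he _ _))
    exact ⟨⟨R 0 ∅, e 0 ∅ / 2, cell, F⟩, ⟨half_pos (he _ _), h1, h2⟩, subset_rfl, le_rfl⟩
  choose! nxt hnok hnR hnR' hne hne' using exists_stage_succ (P := P) hex R e he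
  let st : ℕ → Stage X Γ := fun k => Nat.rec s0 (fun k s => nxt k s) k
  have hst0 : st 0 = s0 := rfl
  have hsts : ∀ k, st (k + 1) = nxt k (st k) := fun k => rfl
  have hok : ∀ k, (st k).Ok P := by
    intro k
    induction k with
    | zero => exact hs0
    | succ k ih => rw [hsts]; exact hnok k _ ih
  have hR : ∀ k j, (st k).R ⊆ (st (k + j)).R := by
    intro k j
    induction j with
    | zero => exact subset_rfl
    | succ j ih => exact ih.trans (by rw [← add_assoc, hsts]; exact hnR _ _ (hok _))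
  have he2 : ∀ k j, (st (k + j)).e ≤ (st k).e * (1 / 2) ^ j := by
    intro k j
    induction j with
    | zero => simp
    | succ j ih =>
      have h1 : (st (k + (j + 1))).e ≤ (st (k + j)).e / 2 := by
        rw [← add_assoc, hsts]; exact hne _ _ (hok _)
      calc _ ≤ (st (k + j)).e / 2 := h1
        _ ≤ ((st k).e * (1 / 2) ^ j) / 2 := by linarith
        _ = _ := by ring
  let cell : ℕ → X → Finset Γ := fun k x => (st k).F.filter fun γ => ∀ j, γ ∈ (st (k + j)).cell x
  have hmem : ∀ k x γ, γ ∈ cell k x ↔ ∀ j, γ ∈ (st (k + j)).cell x := by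
    intro k x γ
    simp only [cell, Finset.mem_filter]
    constructor
    · exact fun h => h.2
    · exact fun h => ⟨(hok k).isCell.subset x (h 0), h⟩
  -- estimate
  have hest : ∀ k, P.real {x | ¬ (st k).R ⊆ cell k x} ≤ 2 * (st k).e := by
    intro k
    have hsub : {x | ¬ (st k).R ⊆ cell k x} ⊆
        ⋃ j, {x | ¬ (st (k + j)).R ⊆ (st (k + j)).cell x} := by
      intro x hx
      simp only [Set.mem_ofPred_eq, Finset.subset_iff, not_forall] at hx
      obtain ⟨r, hr, hx⟩ := hx
      rw [hmem] at hx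
      push Not at hx
      obtain ⟨j, hj⟩ := hx
      refine Set.mem_iUnion.2 ⟨j, fun h => hj (h (hR k j hr))⟩
    have hle : ∀ j, P {x | ¬ (st (k + j)).R ⊆ (st (k + j)).cell x} ≤
        ENNReal.ofReal ((st k).e * (1 / 2) ^ j) := by
      intro j
      rw [← ENNReal.ofReal_toReal (measure_ne_top P _)]
      exact ENNReal.ofReal_le_ofReal ((hok (k + j)).le.trans (he2 k j))
    have hpos := (hok k).pos
    have hsum : HasSum (fun j : ℕ => (st k).e * (1 / 2 : ℝ) ^ j) ((st k).e * 2) :=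
      hasSum_geometric_two.mul_left _
    have h1 : P {x | ¬ (st k).R ⊆ cell k x} ≤ ENNReal.ofReal ((st k).e * 2) := by
      calc _ ≤ P (⋃ j, {x | ¬ (st (k + j)).R ⊆ (st (k + j)).cell x}) := measure_mono hsub
        _ ≤ ∑' j, P {x | ¬ (st (k + j)).R ⊆ (st (k + j)).cell x} := measure_iUnion_le _
        _ ≤ ∑' j : ℕ, ENNReal.ofReal ((st k).e * (1 / 2) ^ j) := ENNReal.tsum_le_tsum hle
        _ = ENNReal.ofReal ((st k).e * 2) := by
            rw [← hsum.tsum_eq, ENNReal.ofReal_tsum_of_nonneg _ hsum.summable]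
            intro j
            positivity
    have h2 := ENNReal.toReal_mono ENNReal.ofReal_ne_top h1
    rw [ENNReal.toReal_ofReal (by positivity)] at h2
    rw [mul_comm]
    exact h2
  refine ⟨cell, fun k => (st k).F, ?_, ?_, ?_, ?_⟩
  · intro k
    refine ⟨?_, ?_, ?_, ?_⟩
    · intro γ
      have : {x | γ ∈ cell k x} = ⋂ j, {x | γ ∈ (st (k + j)).cell x} := by
        ext x
        simp only [Set.mem_ofPred_eq, Set.mem_iInter]
        exact hmem k x γ
      rw [this]
      exact MeasurableSet.iInter fun j => (hok (k + j)).isCell.meas γ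
    · intro x
      rw [hmem]
      exact fun j => (hok (k + j)).isCell.one_mem x
    · intro x
      exact Finset.filter_subset _ _
    · intro x γ hγ δ
      rw [hmem] at hγ
      rw [hmem, hmem]
      exact forall_congr' fun j => (hok (k + j)).isCell.smul_mem x γ (hγ j) δ
  · intro k x γ hγ
    rw [hmem] at hγ ⊢
    intro j
    have := hγ (j + 1)
    rw [show k + (j + 1) = k + 1 + j by ring] at this
    exact this
  · have h1 := hest 0
    have h2 : P.real {x | ¬ R 0 ∅ ⊆ cell 0 x} ≤ P.real {x | ¬ (st 0).R ⊆ cell 0 x} := by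
      refine measureReal_mono ?_
      intro x hx h
      exact hx (hs0R.trans h)
    rw [hst0] at h1 h2
    linarith
  · intro k
    have h1 := hest (k + 1)
    have h2 : P.real {x | ¬ R (k + 1) (st k).F ⊆ cell (k + 1) x} ≤
        P.real {x | ¬ (st (k + 1)).R ⊆ cell (k + 1) x} := by
      refine measureReal_mono ?_
      intro x hx h
      refine hx (subset_trans ?_ h)
      rw [hsts]
      exact hnR' k _ (hok k)
    have h3 : (st (k + 1)).e ≤ e (k + 1) (st k).F / 2 := by
      rw [hsts]; exact hne' k _ (hok k)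
    linarith

theorem exists_nested_cells (hF : Folner Γ)
    (hP : ∀ γ : Γ, MeasurePreserving (fun x : X => γ • x) P P)
    (ι : X → ℝ) (hι : Measurable ι) (hinj : Function.Injective ι)
    (hfree : ∀ (γ : Γ) (x : X), γ • x = x → γ = 1)
    (R : ℕ → Finset Γ → Finset Γ) (e : ℕ → Finset Γ → ℝ) (he : ∀ k F, 0 < e k F) :
    ∃ (cell : ℕ → X → Finset Γ) (F : ℕ → Finset Γ), (∀ k, IsCell (cell k) (F k)) ∧
      (∀ k x, cell k x ⊆ cell (k + 1) x) ∧
      P.real {x | ¬ R 0 ∅ ⊆ cell 0 x} ≤ e 0 ∅ ∧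
      ∀ k, P.real {x | ¬ R (k + 1) (F k) ⊆ cell (k + 1) x} ≤ e (k + 1) (F k) :=
  exists_nested_of (fun R _ he => exists_cell hF hP ι hι hinj hfree R he) R e he

end nested

end Pool.Agent.helper88.OW
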