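import Mathlib

/-!
# Greedy matching of demands to supplies along a measure preserving action
-/

namespace Pool.Agent.helper88.OW

open MeasureTheory

variable {Γ : Type*} [Group Γ] {X : Type*} [MeasurableSpace X] [MulAction Γ X]

/-- State of the greedy matching: unmatched demands (one set for every index) and unmatched
supplies. -/
def gm (e : ℕ → Γ × ℕ) (A : ℕ → Set X) (B : Set X) : ℕ → (ℕ → Set X) × Set X
  | 0 => (A, B)
  | n + 1 => (fun i => {x | x ∈ (gm e A B n).1 i ∧
        ¬ (i = (e n).2 ∧ (e n).1 • x ∈ (gm e A B n).2)},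
      {y | y ∈ (gm e A B n).2 ∧ (e n).1⁻¹ • y ∉ (gm e A B n).1 (e n).2})

/-- the demands matched at step `n` -/
def gmM (e : ℕ → Γ × ℕ) (A : ℕ → Set X) (B : Set X) (n : ℕ) : Set X :=
  {x | x ∈ (gm e A B n).1 (e n).2 ∧ (e n).1 • x ∈ (gm e A B n).2}

variable {e : ℕ → Γ × ℕ} {A : ℕ → Set X} {B : Set X}

omit [MeasurableSpace X] in
lemma gm_fst_anti (i : ℕ) {n m : ℕ} (h : n ≤ m) : (gm e A B m).1 i ⊆ (gm e A B n).1 i := by
  induction m, h using Nat.le_induction with
  | base => exact subset_rfl
  | succ m _ ih => exact fun x hx => ih hx.1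

omit [MeasurableSpace X] in
lemma gm_snd_anti {n m : ℕ} (h : n ≤ m) : (gm e A B m).2 ⊆ (gm e A B n).2 := by
  induction m, h using Nat.le_induction with
  | base => exact subset_rfl
  | succ m _ ih => exact fun x hx => ih hx.1

lemma gm_meas (hm : ∀ γ : Γ, Measurable fun x : X => γ • x) (hA : ∀ i, MeasurableSet (A i))
    (hB : MeasurableSet B) (n : ℕ) :
    (∀ i, MeasurableSet ((gm e A B n).1 i)) ∧ MeasurableSet (gm e A B n).2 := by
  induction n with
  | zero => exact ⟨hA, hB⟩
  | succ n ih =>
    refine ⟨fun i => ?_, ?_⟩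
    · by_cases h : i = (e n).2
      · have : (gm e A B (n + 1)).1 i = (gm e A B n).1 i ∩
            ((fun x : X => (e n).1 • x) ⁻¹' (gm e A B n).2)ᶜ := by
          ext x
          change (x ∈ (gm e A B n).1 i ∧ ¬ (i = (e n).2 ∧ (e n).1 • x ∈ (gm e A B n).2)) ↔ _
          simp [h]
        rw [this]
        exact (ih.1 i).inter ((hm _) ih.2).compl
      · have : (gm e A B (n + 1)).1 i = (gm e A B n).1 i := by
          ext x
          change (x ∈ (gm e A B n).1 i ∧ ¬ (i = (e n).2 ∧ (e n).1 • x ∈ (gm e A B n).2)) ↔ _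
          simp [h]
        rw [this]
        exact ih.1 i
    · have : (gm e A B (n + 1)).2 = (gm e A B n).2 ∩
          ((fun x : X => (e n).1⁻¹ • x) ⁻¹' (gm e A B n).1 (e n).2)ᶜ := by
        ext x; rfl
      rw [this]
      exact ih.2.inter ((hm _) (ih.1 _)).compl

lemma gmM_meas (hm : ∀ γ : Γ, Measurable fun x : X => γ • x) (hA : ∀ i, MeasurableSet (A i))
    (hB : MeasurableSet B) (n : ℕ) : MeasurableSet (gmM e A B n) :=
  ((gm_meas hm hA hB n).1 _).inter ((hm _) (gm_meas hm hA hB n).2)

omit [MeasurableSpace X] in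
/-- the images of the matched sets are disjoint -/
lemma gmM_image_disjoint : Pairwise (Function.onFun Disjoint
    fun n => {y : X | (e n).1⁻¹ • y ∈ gmM e A B n}) := by
  have key : ∀ n m, n < m → Disjoint {y : X | (e n).1⁻¹ • y ∈ gmM e A B n}
      {y : X | (e m).1⁻¹ • y ∈ gmM e A B m} := by
    intro n m hnm
    rw [Set.disjoint_left]
    intro y hy hy'
    have h1 : y ∈ (gm e A B m).2 := by
      have := hy'.2
      rwa [smul_inv_smul] at this
    have h2 : y ∈ (gm e A B (n + 1)).2 := gm_snd_anti hnm h1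
    exact h2.2 hy.1
  intro n m hnm
  rcases lt_or_gt_of_ne hnm with h | h
  · exact key n m h
  · exact (key m n h).symm

omit [MeasurableSpace X] in
/-- the matched sets of the same index are disjoint -/
lemma gmM_unique {x : X} {n m : ℕ} (hi : (e n).2 = (e m).2) (hn : x ∈ gmM e A B n)
    (hm : x ∈ gmM e A B m) : n = m := by
  have key : ∀ n m, n < m → (e n).2 = (e m).2 → x ∈ gmM e A B n → x ∈ gmM e A B m → False := by
    intro n m hnm hi hn hm
    have h1 : x ∈ (gm e A B (n + 1)).1 (e m).2 := gm_fst_anti _ hnm hm.1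
    exact h1.2 ⟨hi.symm, hn.2⟩
  rcases lt_trichotomy n m with h | h | h
  · exact (key n m h hi hn hm).elim
  · exact h
  · exact (key m n h hi.symm hm hn).elim

omit [MeasurableSpace X] in
lemma mem_of_not_matched {x : X} {i : ℕ} (hx : x ∈ A i)
    (h : ∀ n, (e n).2 = i → x ∉ gmM e A B n) (n : ℕ) : x ∈ (gm e A B n).1 i := by
  induction n with
  | zero => exact hx
  | succ n ih =>
    refine ⟨ih, ?_⟩
    rintro ⟨h1, h2⟩
    refine h n h1.symm ⟨?_, h2⟩
    rw [← h1]; exact ih

omit [MeasurableSpace X] in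
lemma mem_of_not_matched' {y : X} (hy : y ∈ B)
    (h : ∀ n, (e n).1⁻¹ • y ∉ gmM e A B n) (n : ℕ) : y ∈ (gm e A B n).2 := by
  induction n with
  | zero => exact hy
  | succ n ih =>
    refine ⟨ih, fun h1 => h n ⟨h1, ?_⟩⟩
    rw [smul_inv_smul]; exact ih

/-- **Greedy matching.** -/
theorem exists_matching [Countable Γ] {P : Measure X} [IsProbabilityMeasure P]
    (hP : ∀ γ : Γ, MeasurePreserving (fun x : X => γ • x) P P)
    (herg : ∀ S T : Set X, MeasurableSet S → MeasurableSet T → P S ≠ 0 → P T ≠ 0 →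
      ∃ g : Γ, P (S ∩ {x | g • x ∈ T}) ≠ 0)
    (A : ℕ → Set X) (hA : ∀ i, MeasurableSet (A i)) (B : Set X) (hB : MeasurableSet B)
    (hsum : ∑' i, P (A i) < P B) :
    ∃ γ : ℕ → X → Γ, (∀ i g, MeasurableSet {x | γ i x = g}) ∧
      ∃ N : Set X, MeasurableSet N ∧ P N = 0 ∧
        (∀ i x, x ∈ A i → x ∉ N → γ i x • x ∈ B) ∧
        (∀ i j x y, x ∈ A i → y ∈ A j → x ∉ N → y ∉ N → γ i x • x = γ j y • y →
          i = j ∧ x = y) := by
  classical
  have hmγ : ∀ γ : Γ, Measurable fun x : X => γ • x := fun γ => (hP γ).measurable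
  obtain ⟨e, he⟩ := exists_surjective_nat (Γ × ℕ)
  have hM : ∀ n, MeasurableSet (gmM e A B n) := gmM_meas hmγ hA hB
  -- unmatched demands
  let N : ℕ → Set X := fun i => A i ∩ ⋂ n, {x | (e n).2 = i → x ∉ gmM e A B n}
  have hNm : ∀ i, MeasurableSet (N i) := by
    intro i
    refine (hA i).inter (MeasurableSet.iInter fun n => ?_)
    by_cases h : (e n).2 = i
    · have : {x | (e n).2 = i → x ∉ gmM e A B n} = (gmM e A B n)ᶜ := by
        ext x; simp [h]
      rw [this]; exact (hM n).compl
    · have : {x | (e n).2 = i → x ∉ gmM e A B n} = Set.univ := by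
        ext x; simp [h]
      rw [this]; exact MeasurableSet.univ
  -- matched supplies
  let I : ℕ → Set X := fun n => {y : X | (e n).1⁻¹ • y ∈ gmM e A B n}
  have hIm : ∀ n, MeasurableSet (I n) := fun n => (hmγ _) (hM n)
  have hPI : ∀ n, P (I n) = P (gmM e A B n) := fun n =>
    (hP (e n).1⁻¹).measure_preimage (hM n).nullMeasurableSet
  have hIle : P (⋃ n, I n) ≤ ∑' i, P (A i) := by
    rw [measure_iUnion gmM_image_disjoint hIm]
    calc ∑' n, P (I n) = ∑' n, P (gmM e A B n) := tsum_congr hPI
      _ = ∑' n, ∑' i, if (e n).2 = i then P (gmM e A B n) else 0 := by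
          refine tsum_congr fun n => ?_
          rw [tsum_eq_single (e n).2 (by
            intro i hi
            rw [if_neg (fun h => hi h.symm)]), if_pos rfl]
      _ = ∑' i, ∑' n, if (e n).2 = i then P (gmM e A B n) else 0 := ENNReal.tsum_comm
      _ ≤ ∑' i, P (A i) := by
          refine ENNReal.tsum_le_tsum fun i => ?_
          have h1 : ∀ n, (if (e n).2 = i then P (gmM e A B n) else 0) =
              P (if (e n).2 = i then gmM e A B n else ∅) := by
            intro n; split_ifs <;> simp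
          rw [tsum_congr h1, ← measure_iUnion]
          · refine measure_mono (Set.iUnion_subset fun n => ?_)
            split_ifs with h
            · intro x hx
              have := gm_fst_anti (e := e) (A := A) (B := B) (e n).2 (Nat.zero_le n) hx.1
              rw [h] at this
              exact this
            · exact Set.empty_subset _
          · intro n m hnm
            rw [Function.onFun, Set.disjoint_left]
            intro x hx hx'
            split_ifs at hx hx' with h1 h2
            · exact hnm (gmM_unique (h1.trans h2.symm) hx hx')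
            · exact hx'
            · exact hx
            · exact hx
          · intro n
            split_ifs
            · exact hM n
            · exact MeasurableSet.empty
  have hrest : P (B \ ⋃ n, I n) ≠ 0 := by
    intro h0
    have h1 : P B ≤ P (⋃ n, I n) := by
      calc P B ≤ P (B \ ⋃ n, I n) + P (⋃ n, I n) := by
            refine le_trans (measure_mono ?_) (measure_union_le _ _)
            intro x hx
            by_cases h : x ∈ ⋃ n, I n
            · exact Or.inr h
            · exact Or.inl ⟨hx, h⟩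
        _ = _ := by rw [h0, zero_add]
    exact absurd (h1.trans hIle) (not_le.2 hsum)
  have hN0 : ∀ i, P (N i) = 0 := by
    intro i
    by_contra hne
    obtain ⟨g, hg⟩ := herg (N i) (B \ ⋃ n, I n) (hNm i)
      (hB.diff (MeasurableSet.iUnion hIm)) hne hrest
    obtain ⟨n, hn⟩ := he (g, i)
    refine hg ?_
    have : N i ∩ {x | g • x ∈ B \ ⋃ n, I n} = ∅ := by
      rw [Set.eq_empty_iff_forall_notMem]
      rintro x ⟨⟨hx1, hx2⟩, hx3, hx4⟩
      have h1 : x ∈ (gm e A B n).1 i := mem_of_not_matched hx1 (fun n hn' =>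
        (Set.mem_iInter.1 hx2 n) hn') n
      have h2 : g • x ∈ (gm e A B n).2 := mem_of_not_matched' hx3 (fun n hn' =>
        hx4 (Set.mem_iUnion.2 ⟨n, hn'⟩)) n
      refine (Set.mem_iInter.1 hx2 n) (by rw [hn]) ⟨?_, ?_⟩
      · rw [hn]; exact h1
      · rw [hn]; exact h2
    rw [this, measure_empty]
  -- definition of the matching
  have hdec : ∀ i x, x ∈ A i → x ∉ N i → ∃ n, (e n).2 = i ∧ x ∈ gmM e A B n := by
    intro i x hx hx'
    by_contra hcon
    push Not at hcon
    exact hx' ⟨hx, Set.mem_iInter.2 fun n => hcon n⟩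
  let γ : ℕ → X → Γ := fun i x =>
    if h : ∃ n, (e n).2 = i ∧ x ∈ gmM e A B n then (e (Nat.find h)).1 else 1
  have hγ : ∀ i x n, (e n).2 = i → x ∈ gmM e A B n → γ i x = (e n).1 := by
    intro i x n hn hx
    have hex : ∃ n, (e n).2 = i ∧ x ∈ gmM e A B n := ⟨n, hn, hx⟩
    simp only [γ, dif_pos hex]
    have h1 := Nat.find_spec hex
    rw [gmM_unique (h1.1.trans hn.symm) h1.2 hx]
  refine ⟨γ, ?_, ⋃ i, N i, MeasurableSet.iUnion hNm, measure_iUnion_null hN0, ?_, ?_⟩
  · intro i g
    have hU : MeasurableSet (⋃ n, {x | (e n).2 = i ∧ x ∈ gmM e A B n}) := by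
      refine MeasurableSet.iUnion fun n => ?_
      by_cases h : (e n).2 = i
      · have : {x | (e n).2 = i ∧ x ∈ gmM e A B n} = gmM e A B n := by ext x; simp [h]
        rw [this]; exact hM n
      · have : {x | (e n).2 = i ∧ x ∈ gmM e A B n} = ∅ := by ext x; simp [h]
        rw [this]; exact MeasurableSet.empty
    have hV : MeasurableSet (⋃ n, {x | ((e n).2 = i ∧ (e n).1 = g) ∧ x ∈ gmM e A B n}) := by
      refine MeasurableSet.iUnion fun n => ?_
      by_cases h : (e n).2 = i ∧ (e n).1 = g
      · have : {x | ((e n).2 = i ∧ (e n).1 = g) ∧ x ∈ gmM e A B n} = gmM e A B n := by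
          ext x; simp [h]
        rw [this]; exact hM n
      · have : {x | ((e n).2 = i ∧ (e n).1 = g) ∧ x ∈ gmM e A B n} = ∅ := by
          ext x
          simp only [Set.mem_ofPred_eq, Set.mem_empty_iff_false, iff_false]
          exact fun h' => h h'.1
        rw [this]; exact MeasurableSet.empty
    by_cases hg : g = 1
    · have : {x | γ i x = g} = (⋃ n, {x | ((e n).2 = i ∧ (e n).1 = g) ∧ x ∈ gmM e A B n}) ∪
          (⋃ n, {x | (e n).2 = i ∧ x ∈ gmM e A B n})ᶜ := by
        ext x
        simp only [Set.mem_ofPred_eq, Set.mem_union, Set.mem_iUnion, Set.mem_compl_iff]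
        constructor
        · intro h
          by_cases hex : ∃ n, (e n).2 = i ∧ x ∈ gmM e A B n
          · left
            obtain ⟨n, hn, hx⟩ := hex
            exact ⟨n, ⟨hn, by rw [← h, hγ i x n hn hx]⟩, hx⟩
          · right; exact hex
        · rintro (⟨n, ⟨hn, hg'⟩, hx⟩ | hex)
          · rw [hγ i x n hn hx, hg']
          · simp only [γ, dif_neg hex, hg]
      rw [this]
      exact hV.union hU.compl
    · have : {x | γ i x = g} = ⋃ n, {x | ((e n).2 = i ∧ (e n).1 = g) ∧ x ∈ gmM e A B n} := by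
        ext x
        simp only [Set.mem_ofPred_eq, Set.mem_iUnion]
        constructor
        · intro h
          by_cases hex : ∃ n, (e n).2 = i ∧ x ∈ gmM e A B n
          · obtain ⟨n, hn, hx⟩ := hex
            exact ⟨n, ⟨hn, by rw [← h, hγ i x n hn hx]⟩, hx⟩
          · simp only [γ, dif_neg hex] at h
            exact absurd h.symm hg
        · rintro ⟨n, ⟨hn, hg'⟩, hx⟩
          rw [hγ i x n hn hx, hg']
      rw [this]
      exact hV
  · intro i x hx hxN
    obtain ⟨n, hn, hxn⟩ := hdec i x hx fun h => hxN (Set.mem_iUnion.2 ⟨i, h⟩)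
    rw [hγ i x n hn hxn]
    exact gm_snd_anti (Nat.zero_le n) hxn.2
  · intro i j x y hx hy hxN hyN hxy
    obtain ⟨n, hn, hxn⟩ := hdec i x hx fun h => hxN (Set.mem_iUnion.2 ⟨i, h⟩)
    obtain ⟨m, hm, hym⟩ := hdec j y hy fun h => hyN (Set.mem_iUnion.2 ⟨j, h⟩)
    rw [hγ i x n hn hxn, hγ j y m hm hym] at hxy
    have h1 : (e n).1 • x ∈ I n := by
      change (e n).1⁻¹ • (e n).1 • x ∈ gmM e A B n
      rw [inv_smul_smul]; exact hxn
    have h2 : (e n).1 • x ∈ I m := by
      change (e m).1⁻¹ • (e n).1 • x ∈ gmM e A B m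
      rw [hxy, inv_smul_smul]; exact hym
    have hnm : n = m := by
      by_contra hne
      exact (Set.disjoint_left.1 (gmM_image_disjoint (e := e) (A := A) (B := B) hne)) h1 h2
    subst hnm
    exact ⟨hn.symm.trans hm, smul_left_cancel _ hxy⟩

end Pool.Agent.helper88.OW
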